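import Pool.Agent.T9h99.Sym2.Diag
set_option autoImplicit false

/-! From many coordinates to all coordinates. -/

open scoped Classical Pointwise
set_option linter.unusedSectionVars false
set_option linter.unusedVariables false

namespace Pool.Agent.T9h99.Sym2

open H137.PFR H137.TwoPow H137.Weak Pool.Agent.T9h99.Sym

variable {n : ℕ} {V : Type*} [AddCommGroup V]

theorem RJ_anti (N : AddSubgroup V) {J J' : Finset (Fin n)} (h : J ⊆ J') :
    RJ N J' ≤ RJ N J := fun _ hx i hi j hj => hx i (h hi) j (h hj)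

theorem hB_RJ_mono {A : Finset (Fin n → V)} (hA : A.Nonempty) (N : AddSubgroup V)
    {J J' : Finset (Fin n)} (h : J ⊆ J') : hB A (RJ N J) ≤ hB A (RJ N J') :=
  hB_anti hA (RJ_anti N h)

/-- the entropy depends only on the number of coordinates -/
theorem hB_RJ_eq {A : Finset (Fin n → V)} (N : AddSubgroup V) {J J' : Finset (Fin n)}
    (h : J.card = J'.card) : hB A (RJ N J) = hB A (RJ N J') := by
  obtain ⟨τ, hτ⟩ := exists_perm_set h
  rw [← hB_perm τ (RJ N J)]
  congr 1
  ext x
  rw [AddSubgroup.mem_comap, mem_RJ, mem_RJ]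
  constructor
  · intro h1 i hi j hj
    have h2 := h1 (τ.symm i) ((hτ _).1 (by rw [Equiv.apply_symm_apply]; exact hi)) (τ.symm j)
      ((hτ _).1 (by rw [Equiv.apply_symm_apply]; exact hj))
    rw [act_apply, act_apply, Equiv.apply_symm_apply, Equiv.apply_symm_apply] at h2
    exact h2
  · intro h1 i hi j hj
    rw [act_apply, act_apply]
    exact h1 _ ((hτ i).2 hi) _ ((hτ j).2 hj)

theorem hB_RJ_le_of_card {A : Finset (Fin n → V)} (hA : A.Nonempty) (N : AddSubgroup V)
    {J J' : Finset (Fin n)} (h : J.card ≤ J'.card) : hB A (RJ N J) ≤ hB A (RJ N J') := by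
  obtain ⟨J'', h1, h2⟩ := Finset.exists_subset_card_eq h
  rw [hB_RJ_eq N h2.symm]
  exact hB_RJ_mono hA N h1

/-- two sets of coordinates with a common element -/
theorem hB_RJ_union {A : Finset (Fin n → V)} (hA : A.Nonempty) (N : AddSubgroup V)
    {J J' : Finset (Fin n)} {l : Fin n} (hl : l ∈ J) (hl' : l ∈ J') :
    hB A (RJ N (J ∪ J')) + Real.log (NP n) ≤ hB A (RJ N J) + hB A (RJ N J') := by
  have h1 : RJ N J ⊓ RJ N J' ≤ RJ N (J ∪ J') := by
    intro x hx i hi j hj
    have h2 : ∀ i ∈ J ∪ J', x i - x l ∈ N := by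
      intro i hi
      rcases Finset.mem_union.1 hi with h | h
      · exact hx.1 i h l hl
      · exact hx.2 i h l hl'
    have e : x i - x j = (x i - x l) - (x j - x l) := by abel
    rw [e]
    exact N.sub_mem (h2 i hi) (h2 j hj)
  have h2 := hB_sub hA (RJ N J) (RJ N J')
  have h3 := hB_anti hA h1
  have h4 : hB A ⊤ ≤ hB A (RJ N J ⊔ RJ N J') := hB_anti hA le_top
  rw [hB_top hA] at h4
  linarith

/-- all sets of at most `m` coordinates have small entropy -/
def Sm (A : Finset (Fin n → V)) (N : AddSubgroup V) (m : ℕ) (H : ℝ) : Prop :=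
  ∀ J : Finset (Fin n), J.card ≤ m → hB A (RJ N J) ≤ Real.log (NP n) + H

theorem Sm_add {A : Finset (Fin n → V)} (hA : A.Nonempty) {N : AddSubgroup V} {m m' : ℕ}
    {H H' : ℝ} (hm : 1 ≤ m) (hH' : 0 ≤ H') (h : Sm A N m H) (h' : Sm A N m' H') :
    Sm A N (m + m' - 1) (H + H') := by
  intro J hJ
  by_cases hJm : J.card ≤ m
  · have := h J hJm
    linarith
  · obtain ⟨J1, hJ1, hJ1c⟩ := Finset.exists_subset_card_eq (show m ≤ J.card by omega)
    obtain ⟨l, hl⟩ : J1.Nonempty := Finset.card_pos.1 (by omega)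
    have h1 := hB_RJ_union hA N hl (Finset.mem_insert_self l (J \ J1))
    have h2 : J1 ∪ insert l (J \ J1) = J := by
      ext i
      rw [Finset.mem_union, Finset.mem_insert, Finset.mem_sdiff]
      constructor
      · rintro (h | h | h)
        · exact hJ1 h
        · rw [h]
          exact hJ1 hl
        · exact h.1
      · intro hi
        by_cases h : i ∈ J1
        · exact Or.inl h
        · exact Or.inr (Or.inr ⟨hi, h⟩)
    rw [h2] at h1
    have h3 := h J1 (by omega)
    have h4 := h' (insert l (J \ J1)) (by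
      have h5 := Finset.card_insert_le l (J \ J1)
      have h6 := Finset.card_sdiff_of_subset hJ1
      omega)
    linarith

/-- the full set of coordinates -/
theorem hB_univ {A : Finset (Fin n → V)} (hA : A.Nonempty) (N : AddSubgroup V) :
    hB A (RJ N Finset.univ) =
      Real.log (NP n) + hh (uw A) (fun ω : A => (ω : Fin n → V)) (RJ N Finset.univ) := by
  have h1 := Hg_prod (law_uP n) (law_uw hA) (fun σ => σ)
    (fun a : A => cl (RJ N Finset.univ) (a : Fin n → V))
  rw [Hg_uP] at h1
  have h2 : hh (uw A) (fun ω : A => (ω : Fin n → V)) (RJ N Finset.univ) =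
    Hg (uw A) (fun a : A => cl (RJ N Finset.univ) (a : Fin n → V)) := rfl
  rw [h2, ← h1]
  unfold hB
  refine Hg_congr fun ω ω' => ?_
  rw [Prod.mk.injEq, Prod.mk.injEq, cl_eq, cl_eq]
  constructor
  · rintro ⟨h3, h4⟩
    refine ⟨h3, ?_⟩
    rw [← h3, ← map_neg, ← map_add, mem_RJ] at h4
    intro i _ j _
    have h5 := h4 (ω.1.symm i) (Finset.mem_univ _) (ω.1.symm j) (Finset.mem_univ _)
    rw [act_apply, act_apply, Equiv.apply_symm_apply, Equiv.apply_symm_apply] at h5
    exact h5
  · rintro ⟨h3, h4⟩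
    refine ⟨h3, ?_⟩
    rw [← h3, ← map_neg, ← map_add, mem_RJ]
    intro i _ j _
    rw [act_apply, act_apply]
    exact h4 _ (Finset.mem_univ _) _ (Finset.mem_univ _)

/-- **Nearly symmetric sets over a finite abelian group.** -/
theorem near_fin [Fintype V] {A : Finset (Fin n → V)} (hA : A.Nonempty) {K : ℝ}
    (hK : ∀ σ, ((A + A.image (act σ)).card : ℝ) ≤ K * A.card)
    (hn : 700000000 * Real.log (2 * K) ≤ n) :
    ∃ N : AddSubgroup V, ((A + N0 n N).card : ℝ) ≤ (2 * K) ^ 7001 * A.card ∧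
      ∃ T : Finset (Fin n → V), (T.card : ℝ) ≤ (2 * K) ^ 8776 ∧
        ∀ a ∈ A, ∃ s ∈ T, ∀ i j, (a i - s i) - (a j - s j) ∈ N := by
  have hK1 := one_le_K hA hK
  have hK0 : 0 < K := by linarith
  set L := Real.log (2 * K) with hL
  have hlog : L = Real.log 2 + Real.log K := by
    rw [hL, Real.log_mul (by norm_num) hK0.ne']
  have hlog2 := Real.log_two_gt_d9
  have hlK : 0 ≤ Real.log K := Real.log_nonneg hK1
  have hL0 : 0.69 ≤ L := by linarith
  have hn0 : (0 : ℝ) < n := by nlinarith
  have hn8 : 8 ≤ n := by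
    have : (8 : ℝ) ≤ n := by nlinarith
    exact_mod_cast this
  obtain ⟨k, hk1, hk2, hk3⟩ := exists_k2 (fun k => kB A (Mk n V k) - kB A ⊤)
    (fun i => by
      have := kB_anti hA (Mk_anti (n := n) (V := V) (Nat.le_succ i))
      linarith) (L := L)
    (by
      have : kB A ⊤ ≤ kB A (Mk n V 0) := kB_anti hA le_top
      linarith)
    (fun i => by
      have h1 : kB A (Mk n V i) ≤ kB A ⊥ := kB_anti hA bot_le
      have h2 := kB_range hA hK
      linarith) hn8
  set δ := kB A (Mk n V (k + 1)) - kB A (Mk n V k) with hδ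
  have hδ3 : δ ≤ 16 * L / n := by
    have e : δ = kB A (Mk n V (k + 1)) - kB A ⊤ - (kB A (Mk n V k) - kB A ⊤) := by
      rw [hδ]
      ring
    rw [e]
    exact hk3
  have hδn : δ * n ≤ 16 * L := by
    rwa [le_div_iff₀ hn0] at hδ3
  have hδ0 : 0 ≤ δ := by
    have := kB_anti hA (Mk_anti (n := n) (V := V) (Nat.le_succ k))
    rw [hδ]
    exact sub_nonneg.2 this
  have hsmall : δ ≤ 1 / 40000000 := by
    refine hδ3.trans ?_
    rw [div_le_div_iff₀ hn0 (by norm_num)]
    linarith
  have hkn : k < n := by omega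
  obtain ⟨N, hN1, hN2⟩ := stage_B hA hkn hsmall
  refine ⟨N, ?_, ?_⟩
  · have h1 := card_add_N0' hA hK hkn hk1 N hN1
    refine h1.trans (mul_le_mul_of_nonneg_right ?_ (Nat.cast_nonneg _))
    have h2 : Real.exp ((k + 1) * (218 * δ)) ^ 2 ≤ (2 * K) ^ 6976 := by
      rw [← exp_mul_log (by linarith : (0 : ℝ) < 2 * K), ← Real.exp_nat_mul, Real.exp_le_exp]
      have h3 : ((k : ℝ) + 1) ≤ n := by exact_mod_cast hkn
      have h4 : ((k : ℝ) + 1) * δ ≤ n * δ := mul_le_mul_of_nonneg_right h3 hδ0
      push_cast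
      rw [← hL]
      nlinarith
    have h3 : K ^ 25 ≤ (2 * K) ^ 25 := pow_le_pow_left₀ hK0.le (by linarith) _
    calc Real.exp ((k + 1) * (218 * δ)) ^ 2 * K ^ 25 ≤ (2 * K) ^ 6976 * (2 * K) ^ 25 :=
          mul_le_mul h2 h3 (by positivity) (by positivity)
      _ = (2 * K) ^ 7001 := by rw [← pow_add]
  · -- the last coordinates
    have g1 : gB A (Ek n k N) ≤ gB A (Mk n V k) + 219 * δ := by
      have h1 : Mk n V (k + 1) ≤ Ek n k N := by
        intro x hx
        rw [mem_Mk] at hx
        rw [mem_Ek hkn]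
        refine ⟨fun i hi => hx i (by omega), ?_⟩
        rw [hx ⟨k, hkn⟩ (Nat.lt_succ_self k)]
        exact N.zero_mem
      have h2 : Ek n k N ≤ Mk n V k := by
        intro x hx
        rw [mem_Ek hkn] at hx
        rw [mem_Mk]
        exact hx.1
      have h3 := gB_step hA h2
      have h4 := kB_anti hA h1
      linarith
    have g2 := hB_RJ_le hA hkn N g1
    have g3 := gB_le hA (Mk n V k)
    have g4 : kB A (Mk n V k) ≤ kB A ⊥ := kB_anti hA bot_le
    have g5 := kB_range hA hK
    have g6 := kB_top_le hA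
    set S : Finset (Fin n) := Finset.univ.filter (fun i : Fin n => k ≤ (i : ℕ)) with hS
    have hScard : S.card = n - k := by
      have h1 : S = Finset.Ici (⟨k, hkn⟩ : Fin n) := by
        ext i
        rw [hS, Finset.mem_filter, Finset.mem_Ici, Fin.le_def]
        exact ⟨fun h => h.2, fun h => ⟨Finset.mem_univ _, h⟩⟩
      rw [h1, Fin.card_Ici]
    have g7 : ((n - k : ℕ) : ℝ) * (219 * δ) ≤ 1752 * L := by
      have h1 : ((n - k : ℕ) : ℝ) ≤ n / 2 := by
        have h2 : 2 * (n - k) ≤ n := by omega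
        have h3 : (2 : ℝ) * ((n - k : ℕ) : ℝ) ≤ n := by exact_mod_cast h2
        linarith
      have h2 : ((n - k : ℕ) : ℝ) * (219 * δ) ≤ (n / 2) * (219 * δ) :=
        mul_le_mul_of_nonneg_right h1 (by positivity)
      linarith
    have hSm : Sm A N (n - k) (1755 * L) := by
      intro J hJ
      rw [← hScard] at hJ
      have h1 := hB_RJ_le_of_card hA N hJ
      linarith
    have hk4 : n + 2 ≤ 4 * (n - k) := by omega
    have h2 := Sm_add hA (by omega) (by positivity) hSm hSm
    have h3 := Sm_add hA (by omega) (by positivity) h2 h2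
    have h4 := Sm_add hA (by omega) (by positivity) h3 hSm
    have h5 := h4 Finset.univ (by
      rw [Finset.card_univ, Fintype.card_fin]
      omega)
    rw [hB_univ hA] at h5
    have h6 : hh (uw A) (fun ω : A => (ω : Fin n → V)) (RJ N Finset.univ) ≤ 8775 * L := by
      linarith
    have hAA : ((A + A).card : ℝ) ≤ K * A.card := by
      have h1 := hK 1
      have e : A.image (act 1) = A := by
        have : ⇑(act (V := V) (1 : Equiv.Perm (Fin n))) = id := by
          funext x i
          rfl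
        rw [this, Finset.image_id]
      rwa [e] at h1
    obtain ⟨T, _, hT1, hT2⟩ := cover_cosets hA hK0
      (le_of_eq_of_le ((Nat.cast_inj (R := ℝ)).2 (add_card_inst _ _ A A)) hAA)
      (RJ N Finset.univ) h6
    refine ⟨T, hT1.trans ?_, fun a ha => ?_⟩
    · have h7 : Real.exp (8775 * L) = (2 * K) ^ 8775 := by
        have := exp_mul_log (by linarith : (0 : ℝ) < 2 * K) 8775
        rw [← hL] at this
        rw [← this]
        norm_num
      rw [h7, show (8776 : ℕ) = 1 + 8775 from rfl, pow_add, pow_one]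
      exact mul_le_mul_of_nonneg_right (by linarith) (by positivity)
    · obtain ⟨t, ht, h7⟩ := hT2 a ha
      refine ⟨t, ht, fun i j => ?_⟩
      exact h7 i (Finset.mem_univ _) j (Finset.mem_univ _)

end Pool.Agent.T9h99.Sym2
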