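import Pool.Agent.T9h99.Sym2.Lift
set_option autoImplicit false

/-! The doubling of the lifted random variable. -/

open scoped Classical Pointwise
set_option linter.unusedSectionVars false
set_option linter.unusedVariables false

namespace Pool.Agent.T9h99.Sym2

open H137.PFR H137.TwoPow H137.Weak Pool.Agent.T9h99.Sym

/-- entropy of a function of a random variable -/
theorem Hg_map {Ω Ω' α : Type*} [Fintype Ω] [Fintype Ω'] (w : Ω → ℝ) (π : Ω → Ω') (X : Ω' → α) :
    Hg w (fun ω => X (π ω)) = Hg (push w π) X := by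
  have h1 : ∀ a, push (push w π) X a = push w (fun ω => X (π ω)) a := by
    intro a
    unfold push
    rw [← Finset.sum_filter]
    have h2 : ∀ b ∈ Finset.univ.filter (fun b => X b = a),
        ∑ ω, (if π ω = b then w ω else 0) =
          ∑ ω, (if π ω = b ∧ X (π ω) = a then w ω else 0) := by
      intro b hb
      refine Finset.sum_congr rfl fun ω _ => ?_
      by_cases h : π ω = b
      · rw [if_pos h, if_pos ⟨h, by rw [h]; exact (Finset.mem_filter.1 hb).2⟩]
      · rw [if_neg h, if_neg fun h' => h h'.1]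
    rw [Finset.sum_congr rfl h2, Finset.sum_comm]
    refine Finset.sum_congr rfl fun ω _ => ?_
    by_cases h : X (π ω) = a
    · rw [if_pos h, Finset.sum_eq_single (π ω)]
      · rw [if_pos ⟨rfl, h⟩]
      · intro b _ hb
        rw [if_neg fun h' => hb h'.1.symm]
      · intro h'
        exact (h' (Finset.mem_filter.2 ⟨Finset.mem_univ _, h⟩)).elim
    · rw [if_neg h]
      refine Finset.sum_eq_zero fun b _ => ?_
      rw [if_neg fun h' => h h'.2]
  unfold Hg
  simp only [h1]
  have h2 : ∀ b, push w π b * (-Real.log (push w (fun ω => X (π ω)) (X b))) =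
      ∑ ω, (if π ω = b then w ω * (-Real.log (push w (fun ω => X (π ω)) (X (π ω)))) else 0) := by
    intro b
    have h3 : push w π b = ∑ ω, (if π ω = b then w ω else 0) := rfl
    rw [h3, Finset.sum_mul]
    refine Finset.sum_congr rfl fun ω _ => ?_
    by_cases h : π ω = b
    · rw [if_pos h, if_pos h, h]
    · rw [if_neg h, if_neg h, zero_mul]
  rw [Finset.sum_congr rfl fun b _ => h2 b, Finset.sum_comm]
  refine Finset.sum_congr rfl fun ω _ => ?_
  rw [Finset.sum_ite_eq, if_pos (Finset.mem_univ _)]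

variable {n : ℕ} {V : Type*} [AddCommGroup V]

/-- number of permutations -/
noncomputable def NP (n : ℕ) : ℝ := Fintype.card (Equiv.Perm (Fin n))

theorem NP_pos (n : ℕ) : 0 < NP n := cardP_pos n

theorem one_le_NP (n : ℕ) : 1 ≤ NP n := by
  unfold NP
  exact_mod_cast Fintype.card_pos (α := Equiv.Perm (Fin n))

theorem push_id {Ω : Type*} [Fintype Ω] (w : Ω → ℝ) (ω : Ω) : push w (fun x => x) ω = w ω := by
  unfold push
  rw [Finset.sum_ite_eq', if_pos (Finset.mem_univ _)]

theorem Hg_uP (n : ℕ) : Hg (uP n) (fun σ => σ) = Real.log (NP n) := by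
  unfold Hg
  simp only [push_id]
  unfold uP
  rw [Finset.sum_const, Finset.card_univ, nsmul_eq_mul, ← mul_assoc,
    mul_inv_cancel₀ (cardP_pos n).ne', one_mul, Real.log_inv, neg_neg]
  rfl

theorem lab_sub_inj {σ σ' τ τ' : Equiv.Perm (Fin n)} (hne : σ ≠ σ')
    (h : lab τ - lab τ' = lab σ - lab σ') : τ = σ ∧ τ' = σ' := by
  have h1 := congrFun h σ
  have h2 := congrFun h σ'
  unfold lab at h1 h2
  simp only [Pi.sub_apply, Pi.single_apply, if_true] at h1 h2
  rw [if_neg hne] at h1
  rw [if_neg (Ne.symm hne)] at h2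
  constructor
  · by_contra h3
    rw [if_neg (Ne.symm h3)] at h1
    split_ifs at h1 <;> omega
  · by_contra h3
    rw [if_neg (Ne.symm h3)] at h2
    split_ifs at h2 <;> omega

theorem lab_sub_diag {σ τ τ' : Equiv.Perm (Fin n)} (h : lab τ - lab τ' = lab σ - lab σ) :
    τ = τ' := by
  rw [sub_self, sub_eq_zero] at h
  exact lab_inj h

/-- the difference of the labels forgets little -/
theorem Hg_pair_le (n : ℕ) :
    Hg (prod (uP n) (uP n)) (fun q => q) ≤
      Hg (prod (uP n) (uP n)) (fun q => lab q.1 - lab q.2) + 1 := by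
  set w := prod (uP n) (uP n) with hw
  set N := NP n with hN
  have hN0 : 0 < N := NP_pos n
  have hN1 : 1 ≤ N := one_le_NP n
  have hwq : ∀ q, w q = N⁻¹ * N⁻¹ := fun q => rfl
  have hlog : 0 ≤ Real.log N := Real.log_nonneg hN1
  set e : Equiv.Perm (Fin n) × Equiv.Perm (Fin n) → (Equiv.Perm (Fin n) → ℤ) :=
    fun q => lab q.1 - lab q.2 with he
  have hpos : ∀ q, 0 < push w e (e q) := by
    intro q
    have h0 : 0 < w q := by
      rw [hwq]
      positivity
    exact lt_of_lt_of_le h0 (N149.Tow.le_push (law_prod (law_uP n) (law_uP n)) e q)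
  have hoff : ∀ q, q.1 ≠ q.2 → push w e (e q) ≤ N⁻¹ * N⁻¹ := by
    intro q hq
    unfold push
    rw [Finset.sum_eq_single q]
    · rw [if_pos rfl, hwq]
    · intro b _ hb
      rw [if_neg]
      intro h
      have h1 := lab_sub_inj hq h
      exact hb (Prod.ext h1.1 h1.2)
    · intro h
      exact absurd (Finset.mem_univ _) h
  have hdiag : ∀ q, q.1 = q.2 → push w e (e q) ≤ N⁻¹ := by
    intro q hq
    have h1 : push w e (e q) ≤ ∑ b : Equiv.Perm (Fin n) × Equiv.Perm (Fin n),
        (if b.1 = b.2 then N⁻¹ * N⁻¹ else 0) := by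
      unfold push
      refine Finset.sum_le_sum fun b _ => ?_
      by_cases h : e b = e q
      · have h2 : b.1 = b.2 := by
          have h3 : lab b.1 - lab b.2 = lab q.1 - lab q.2 := h
          rw [← hq] at h3
          exact lab_sub_diag h3
        rw [if_pos h, if_pos h2, hwq]
      · rw [if_neg h]
        split_ifs
        · positivity
        · exact le_refl _
    refine h1.trans (le_of_eq ?_)
    rw [Fintype.sum_prod_type]
    simp only
    have h2 : ∀ x : Equiv.Perm (Fin n), ∑ y : Equiv.Perm (Fin n),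
        (if x = y then N⁻¹ * N⁻¹ else 0) = N⁻¹ * N⁻¹ := by
      intro x
      rw [Finset.sum_ite_eq, if_pos (Finset.mem_univ _)]
    rw [Finset.sum_congr rfl fun x _ => h2 x, Finset.sum_const, Finset.card_univ, nsmul_eq_mul]
    change N * (N⁻¹ * N⁻¹) = N⁻¹
    rw [← mul_assoc, mul_inv_cancel₀ hN0.ne', one_mul]
  have hterm : ∀ q, w q * (-Real.log (push w (fun q => q) q)) ≤
      w q * (-Real.log (push w e (e q))) +
        (if q.1 = q.2 then N⁻¹ * N⁻¹ * Real.log N else 0) := by
    intro q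
    rw [push_id, hwq]
    have h2 : Real.log (N⁻¹ * N⁻¹) = -(2 * Real.log N) := by
      rw [Real.log_mul (inv_pos.2 hN0).ne' (inv_pos.2 hN0).ne', Real.log_inv]
      ring
    have h3 : (0 : ℝ) < N⁻¹ * N⁻¹ := by positivity
    by_cases hq : q.1 = q.2
    · rw [if_pos hq]
      have h4 := Real.log_le_log (hpos q) (hdiag q hq)
      rw [Real.log_inv] at h4
      rw [h2]
      nlinarith
    · rw [if_neg hq]
      have h4 := Real.log_le_log (hpos q) (hoff q hq)
      rw [h2] at h4 ⊢
      nlinarith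
  have hsum : Hg w (fun q => q) ≤ Hg w e +
      ∑ q : Equiv.Perm (Fin n) × Equiv.Perm (Fin n),
        (if q.1 = q.2 then N⁻¹ * N⁻¹ * Real.log N else 0) := by
    unfold Hg
    rw [← Finset.sum_add_distrib]
    exact Finset.sum_le_sum fun q _ => hterm q
  have hlast : ∑ q : Equiv.Perm (Fin n) × Equiv.Perm (Fin n),
      (if q.1 = q.2 then N⁻¹ * N⁻¹ * Real.log N else 0) = N⁻¹ * Real.log N := by
    rw [Fintype.sum_prod_type]
    simp only
    have h2 : ∀ x : Equiv.Perm (Fin n), ∑ y : Equiv.Perm (Fin n),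
        (if x = y then N⁻¹ * N⁻¹ * Real.log N else 0) = N⁻¹ * N⁻¹ * Real.log N := by
      intro x
      rw [Finset.sum_ite_eq, if_pos (Finset.mem_univ _)]
    rw [Finset.sum_congr rfl fun x _ => h2 x, Finset.sum_const, Finset.card_univ, nsmul_eq_mul]
    change N * (N⁻¹ * N⁻¹ * Real.log N) = N⁻¹ * Real.log N
    rw [← mul_assoc, ← mul_assoc, mul_inv_cancel₀ hN0.ne', one_mul]
  rw [hlast] at hsum
  have h5 : N⁻¹ * Real.log N ≤ 1 := by
    rw [inv_mul_le_iff₀ hN0, mul_one]
    exact (Real.log_le_sub_one_of_pos hN0).trans (by linarith)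
  linarith

theorem push_wO_fst {A : Finset (Fin n → V)} (hA : A.Nonempty) :
    push (wO A) (fun ω => ω.1) = uP n := by
  funext σ
  have hw := law_uw hA
  unfold push wO prod
  rw [Fintype.sum_prod_type]
  rw [Finset.sum_eq_single σ]
  · simp only [if_true]
    rw [← Finset.mul_sum, hw.2, mul_one]
  · intro b _ hb
    refine Finset.sum_eq_zero fun a _ => ?_
    rw [if_neg hb]
  · intro h
    exact absurd (Finset.mem_univ _) h

/-- the pair of permutations -/
def PP (A : Finset (Fin n → V)) (p : Om A × Om A) : Equiv.Perm (Fin n) × Equiv.Perm (Fin n) :=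
  (p.1.1, p.2.1)

theorem push_PP {A : Finset (Fin n → V)} (hA : A.Nonempty) :
    push (prod (wO A) (wO A)) (PP A) = prod (uP n) (uP n) := by
  funext q
  obtain ⟨a, b⟩ := q
  have h1 := push_prod (wO A) (wO A) (fun ω : Om A => ω.1) (fun ω : Om A => ω.1) a b
  rw [push_wO_fst hA] at h1
  exact h1

theorem Hg_PP {A : Finset (Fin n → V)} (hA : A.Nonempty) :
    Hg (prod (wO A) (wO A)) (PP A) = 2 * Real.log (NP n) := by
  have h1 := Hg_map (prod (wO A) (wO A)) (PP A) (fun q => q)
  have h2 : Hg (prod (wO A) (wO A)) (fun ω => PP A ω) = Hg (prod (wO A) (wO A)) (PP A) := rfl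
  rw [h2, push_PP hA] at h1
  rw [h1]
  have h3 := Hg_prod (law_uP n) (law_uP n) (fun σ => σ) (fun σ => σ)
  have h4 : Hg (prod (uP n) (uP n)) (fun p : Equiv.Perm (Fin n) × Equiv.Perm (Fin n) =>
      (p.1, p.2)) = Hg (prod (uP n) (uP n)) (fun q => q) := rfl
  rw [h4, Hg_uP] at h3
  rw [h3]
  ring

theorem PP_le_ee {A : Finset (Fin n → V)} (hA : A.Nonempty) :
    Hg (prod (wO A) (wO A)) (PP A) ≤ Hg (prod (wO A) (wO A)) (ee A) + 1 := by
  have h1 := Hg_map (prod (wO A) (wO A)) (PP A) (fun q => q)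
  have h2 := Hg_map (prod (wO A) (wO A)) (PP A) (fun q => lab q.1 - lab q.2)
  have h3 : Hg (prod (wO A) (wO A)) (fun ω => PP A ω) = Hg (prod (wO A) (wO A)) (PP A) := rfl
  have h4 : Hg (prod (wO A) (wO A)) (fun ω => lab (PP A ω).1 - lab (PP A ω).2) =
      Hg (prod (wO A) (wO A)) (ee A) := rfl
  rw [h3] at h1
  rw [h4] at h2
  rw [h1, h2, push_PP hA]
  exact Hg_pair_le n

theorem hB_bot {A : Finset (Fin n → V)} (hA : A.Nonempty) :
    hB A ⊥ = Real.log (NP n) + Real.log A.card := by
  unfold hB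
  have h1 : Hg (wO A) (fun ω => (ω.1, cl ⊥ (act ω.1 (ω.2 : Fin n → V)))) =
      Hg (wO A) (fun ω => (ω.1, (ω.2 : Fin n → V))) := by
    refine Hg_congr fun ω ω' => ?_
    rw [Prod.mk.injEq, Prod.mk.injEq, cl_eq, AddSubgroup.mem_bot, neg_add_eq_zero]
    constructor
    · rintro ⟨h2, h3⟩
      refine ⟨h2, act_inj ω.1 ?_⟩
      rw [h3, h2]
    · rintro ⟨h2, h3⟩
      exact ⟨h2, by rw [h2, h3]⟩
  rw [h1]
  have h2 := Hg_prod (law_uP n) (law_uw hA) (fun σ => σ) (fun a : A => (a : Fin n → V))
  rw [Hg_uP, Hg_uw hA] at h2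
  exact h2

theorem hB_top {A : Finset (Fin n → V)} (hA : A.Nonempty) : hB A ⊤ = Real.log (NP n) := by
  unfold hB
  have h1 : Hg (wO A) (fun ω => (ω.1, cl ⊤ (act ω.1 (ω.2 : Fin n → V)))) =
      Hg (wO A) (fun ω => (fun σ => σ) ω.1) := by
    refine Hg_congr fun ω ω' => ?_
    rw [Prod.mk.injEq, cl_eq]
    exact ⟨fun h => h.1, fun h => ⟨h, AddSubgroup.mem_top _⟩⟩
  rw [h1, Hg_map (wO A) (fun ω => ω.1) (fun σ => σ), push_wO_fst hA, Hg_uP]

/-- differences of two permuted copies -/
theorem card_diff {A : Finset (Fin n → V)} (hA : A.Nonempty) {K : ℝ} (hK0 : 0 ≤ K)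
    (hK : ∀ σ, ((A + A.image (act σ)).card : ℝ) ≤ K * A.card) (σ τ : Equiv.Perm (Fin n)) :
    ((A.image (act σ) - A.image (act τ)).card : ℝ) ≤ K ^ 2 * A.card := by
  have hA0 : (0 : ℝ) < A.card := by exact_mod_cast hA.card_pos
  have h1 := Finset.ruzsa_triangle_inequality_sub_add_add (A.image (act σ)) A (A.image (act τ))
  have h2 : (((A.image (act σ) - A.image (act τ)).card : ℝ)) * A.card ≤
      (A.image (act σ) + A).card * (A.image (act τ) + A).card := by exact_mod_cast h1
  have h3 : ((A.image (act σ) + A).card : ℝ) ≤ K * A.card := by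
    rw [add_comm]
    exact hK σ
  have h3' : ((A.image (act τ) + A).card : ℝ) ≤ K * A.card := by
    rw [add_comm]
    exact hK τ
  have h4 : ((A.image (act σ) + A).card : ℝ) * (A.image (act τ) + A).card ≤
      (K * A.card) * (K * A.card) := mul_le_mul h3 h3' (by positivity) (by positivity)
  have h5 : (((A.image (act σ) - A.image (act τ)).card : ℝ)) * A.card ≤
      (K ^ 2 * A.card) * A.card := by nlinarith
  exact le_of_mul_le_mul_right h5 hA0

theorem one_le_K {A : Finset (Fin n → V)} (hA : A.Nonempty) {K : ℝ}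
    (hK : ∀ σ, ((A + A.image (act σ)).card : ℝ) ≤ K * A.card) : 1 ≤ K := by
  have hpos : (0 : ℝ) < A.card := by exact_mod_cast hA.card_pos
  have h1 : (A.card : ℝ) ≤ (A + A.image (act 1)).card := by
    exact_mod_cast Finset.card_le_card_add_right (hA.image _)
  have h2 := h1.trans (hK 1)
  by_contra h3
  push Not at h3
  nlinarith

/-- **Doubling of the lifted variable.** -/
theorem kB_range {A : Finset (Fin n → V)} (hA : A.Nonempty) {K : ℝ}
    (hK : ∀ σ, ((A + A.image (act σ)).card : ℝ) ≤ K * A.card) :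
    kB A ⊥ - kB A ⊤ ≤ 2 * Real.log K + 1 := by
  have hK1 := one_le_K hA hK
  have hK0 : 0 < K := by linarith
  have hA0 : (0 : ℝ) < A.card := by exact_mod_cast hA.card_pos
  have hw := law_wO hA
  have hww := law_prod hw hw
  rw [kB_eq, kB_eq, hB_bot hA, hB_top hA]
  -- the difference, given the permutations
  set S : Om A × Om A → Finset (Fin n → V) := fun p =>
    A.image (act p.1.1) - A.image (act p.2.1) with hS
  have hmem : ∀ p, Zz A p ∈ S p := fun p =>
    Finset.sub_mem_sub (Finset.mem_image_of_mem _ p.1.2.2) (Finset.mem_image_of_mem _ p.2.2.2)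
  have h1 : Hg (prod (wO A) (wO A)) (fun p => (ee A p, cl ⊥ (Zz A p))) ≤
      Hg (prod (wO A) (wO A)) (PP A) + Hg (prod (wO A) (wO A)) (fun p => idx (S p) (Zz A p)) := by
    refine Hg_add_of hww fun p q h h' => ?_
    have e1 : p.1.1 = q.1.1 := by
      have e0 := congrArg Prod.fst h
      exact e0
    have e2 : p.2.1 = q.2.1 := by
      have e0 := congrArg Prod.snd h
      exact e0
    have e3 : S p = S q := by
      rw [hS]
      simp only [e1, e2]
    have e4 : Zz A p = Zz A q := by
      refine idx_inj (S := S p) (hmem p) (by rw [e3]; exact hmem q) ?_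
      have h5 : idx (S p) (Zz A p) = idx (S q) (Zz A q) := h'
      rw [← e3] at h5
      exact h5
    have e5 : ee A p = ee A q := by
      unfold ee
      rw [e1, e2]
    rw [e4, e5]
  have h2 : Hg (prod (wO A) (wO A)) (fun p => idx (S p) (Zz A p)) ≤
      Real.log (K ^ 2 * A.card) := by
    have h3 := Hg_le_log_card hww (fun p => idx (S p) (Zz A p))
      (Finset.range ⌊K ^ 2 * (A.card : ℝ)⌋₊) (fun p => by
        rw [Finset.mem_range]
        refine lt_of_lt_of_le (idx_lt (hmem p)) ?_
        exact Nat.le_floor (card_diff hA hK0.le hK _ _))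
    refine h3.trans ?_
    rw [Finset.card_range]
    have h4 : (1 : ℝ) ≤ K ^ 2 * A.card := by
      have h5 : (1 : ℝ) ≤ A.card := by exact_mod_cast hA.card_pos
      have h6 : (1 : ℝ) ≤ K ^ 2 := one_le_pow₀ hK1
      nlinarith
    have h5 : 0 < ⌊K ^ 2 * (A.card : ℝ)⌋₊ := Nat.floor_pos.2 h4
    exact Real.log_le_log (by exact_mod_cast h5) (Nat.floor_le (by linarith))
  have h3 : Real.log (K ^ 2 * A.card) = 2 * Real.log K + Real.log A.card := by
    rw [Real.log_mul (by positivity) hA0.ne', Real.log_pow]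
    norm_num
  have h4 : Hg (prod (wO A) (wO A)) (ee A) ≤
      Hg (prod (wO A) (wO A)) (fun p => (ee A p, cl ⊤ (Zz A p))) :=
    Hg_le_of hww fun p q h => by
      have e0 := congrArg Prod.fst h
      exact e0
  have h5 := PP_le_ee hA
  linarith

end Pool.Agent.T9h99.Sym2
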