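import Pool.Agent.T9h99.Sym2.Stage
set_option autoImplicit false

/-! Vectors with entries in the subgroup and coordinate sum zero are almost periods of a nearly
symmetric set. -/

open scoped Classical Pointwise
set_option linter.unusedSectionVars false
set_option linter.unusedVariables false

namespace Pool.Agent.T9h99.Sym2

open H137.PFR H137.TwoPow H137.Weak Pool.Agent.T9h99.Sym

section generic

variable {Ω Γ : Type*} [Fintype Ω] [AddCommGroup Γ]

/-- classes modulo `M` in the class of `ω` modulo `P` -/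
noncomputable def fibc (X : Ω → Γ) (M P : AddSubgroup Γ) (ω : Ω) : Finset (Γ ⧸ M) :=
  (Finset.univ.filter (fun ω' => -(X ω) + X ω' ∈ P)).image (fun ω' => cl M (X ω'))

theorem dense_gen {w : Ω → ℝ} (hw : Law w) (X : Ω → Γ) (M P : AddSubgroup Γ) :
    ∃ ω₀, Real.exp (hh w X M - hh w X P) ≤ ((fibc X M P ω₀).card : ℝ) := by
  have hne : (Finset.univ : Finset Ω).Nonempty := by
    rw [Finset.nonempty_iff_ne_empty]
    intro h
    have := hw.2
    rw [h, Finset.sum_empty] at this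
    exact zero_ne_one this
  obtain ⟨ω₀, _, hmax⟩ := Finset.exists_max_image Finset.univ
    (fun ω => (fibc X M P ω).card) hne
  refine ⟨ω₀, ?_⟩
  have hmem : ∀ ω, cl M (X ω) ∈ fibc X M P ω := by
    intro ω
    refine Finset.mem_image.2 ⟨ω, Finset.mem_filter.2 ⟨Finset.mem_univ _, ?_⟩, rfl⟩
    rw [neg_add_cancel]
    exact P.zero_mem
  have hBpos : 0 < (fibc X M P ω₀).card := Finset.card_pos.2 ⟨_, hmem ω₀⟩
  set W : Ω → ℕ := fun ω => idx (fibc X M P ω) (cl M (X ω)) with hW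
  have h1 : hh w X M ≤ hh w X P + Hg w W := by
    refine Hg_add_of hw fun ω ω' h h' => ?_
    rw [QuotientAddGroup.eq] at h
    have hf : fibc X M P ω = fibc X M P ω' := by
      unfold fibc
      congr 1
      ext x
      rw [Finset.mem_filter, Finset.mem_filter]
      refine and_congr_right fun _ => ?_
      constructor
      · intro hx
        have e : -(X ω') + X x = -(-(X ω) + X ω') + (-(X ω) + X x) := by abel
        rw [e]
        exact P.add_mem (P.neg_mem h) hx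
      · intro hx
        have e : -(X ω) + X x = (-(X ω) + X ω') + (-(X ω') + X x) := by abel
        rw [e]
        exact P.add_mem h hx
    have h2 := hmem ω'
    rw [← hf] at h2
    have h3 : idx (fibc X M P ω) (cl M (X ω)) = idx (fibc X M P ω') (cl M (X ω')) := h'
    rw [← hf] at h3
    exact idx_inj (hmem ω) h2 h3
  have h2 : Hg w W ≤ Real.log (fibc X M P ω₀).card := by
    have h3 := Hg_le_log_card hw W (Finset.range (fibc X M P ω₀).card) (fun ω => by
      rw [Finset.mem_range]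
      exact lt_of_lt_of_le (idx_lt (hmem ω)) (hmax _ (Finset.mem_univ ω)))
    rwa [Finset.card_range] at h3
  have hB' : (0 : ℝ) < (fibc X M P ω₀).card := by exact_mod_cast hBpos
  rw [← Real.le_log_iff_exp_le hB']
  linarith

end generic

variable {n : ℕ} {V : Type*} [AddCommGroup V]

/-- **A dense class of one permuted copy.** -/
theorem dense_B {A : Finset (Fin n → V)} (hA : A.Nonempty) (M P : AddSubgroup (Fin n → V)) :
    ∃ σ : Equiv.Perm (Fin n), ∃ b₀ ∈ A.image (act σ), Real.exp (hB A M - hB A P) ≤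
      (((fib (A.image (act σ)) P b₀).image
        (fun x => (QuotientAddGroup.mk x : (Fin n → V) ⧸ M))).card : ℝ) := by
  obtain ⟨ω₀, h⟩ := dense_gen (law_wO hA) (Xt A) (Lf M) (Lf P)
  rw [hh_Lf, hh_Lf] at h
  refine ⟨ω₀.1, act ω₀.1 ω₀.2, Finset.mem_image_of_mem _ ω₀.2.2, h.trans ?_⟩
  have h1 : (fibc (Xt A) (Lf M) (Lf P) ω₀).card ≤
      ((fib (A.image (act ω₀.1)) P (act ω₀.1 ω₀.2)).image
        (fun x => (QuotientAddGroup.mk x : (Fin n → V) ⧸ M))).card := by
    -- the class modulo `Lf M` is determined by the class modulo `M`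
    have hex : ∀ q : (Fin n → V) ⧸ M, ∃ y : ((Equiv.Perm (Fin n) → ℤ) × (Fin n → V)) ⧸ Lf M,
        ∀ ω : Om A, ω.1 = ω₀.1 → cl M (act ω.1 (ω.2 : Fin n → V)) = q →
          y = cl (Lf M) (Xt A ω) := by
      intro q
      by_cases h : ∃ ω : Om A, ω.1 = ω₀.1 ∧ cl M (act ω.1 (ω.2 : Fin n → V)) = q
      · obtain ⟨ω, h1, h2⟩ := h
        refine ⟨cl (Lf M) (Xt A ω), fun ω' h3 h4 => ?_⟩
        rw [Xt_class, h1, h3]
        rw [h1] at h2
        rw [h3] at h4
        rw [h2, h4]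
      · exact ⟨0, fun ω h1 h2 => absurd ⟨ω, h1, h2⟩ h⟩
    choose y hy using hex
    refine (Finset.card_le_card ?_).trans (Finset.card_image_le (f := y))
    intro z hz
    obtain ⟨ω, hω, rfl⟩ := Finset.mem_image.1 hz
    have hω2 := mem_Lf.1 (Finset.mem_filter.1 hω).2
    have e1 : ω.1 = ω₀.1 := by
      have e2 : -lab ω₀.1 + lab ω.1 = 0 := hω2.1
      rw [neg_add_eq_zero] at e2
      exact (lab_inj e2).symm
    have e2 : -(act ω₀.1 (ω₀.2 : Fin n → V)) + act ω₀.1 (ω.2 : Fin n → V) ∈ P := by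
      have e3 : -(act ω₀.1 (ω₀.2 : Fin n → V)) + act ω.1 (ω.2 : Fin n → V) ∈ P := hω2.2
      rwa [e1] at e3
    refine Finset.mem_image.2 ⟨cl M (act ω₀.1 (ω.2 : Fin n → V)),
      Finset.mem_image.2 ⟨act ω₀.1 (ω.2 : Fin n → V), mem_fib.2
        ⟨Finset.mem_image_of_mem _ ω.2.2, e2⟩, rfl⟩, ?_⟩
    exact hy _ ω e1 (by rw [e1])
  exact_mod_cast h1

variable [Fintype V]

theorem cover_Nk' {A : Finset (Fin n → V)} (hA : A.Nonempty) {k : ℕ} (hk : k < n)
    (N : AddSubgroup V) {ε : ℝ}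
    (h : hB A (Ek n k N) + Real.log (Nat.card N) ≤ hB A (Mk n V (k + 1)) + ε) :
    ∃ σ : Equiv.Perm (Fin n), ∃ F ⊆ Nk n k N, (F.card : ℝ) ≤ Real.exp ((k + 1) * ε) ∧
      Nk n k N ⊆ F + ((A.image (act σ)).image (tr k) - (A.image (act σ)).image (tr k)) := by
  have h1 := hB_Pj hA hk N h (k + 1) (le_refl _)
  obtain ⟨σ, a₀, ha₀, h2⟩ := dense_B hA (Mk n V (k + 1)) (Pj n (k + 1) k N)
  refine ⟨σ, ?_⟩
  set B := A.image (act σ) with hB
  set D := (fib B (Pj n (k + 1) k N) a₀).image (tr k) with hD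
  have hcardD : ((fib B (Pj n (k + 1) k N) a₀).image
      (fun x => (QuotientAddGroup.mk x : (Fin n → V) ⧸ Mk n V (k + 1)))).card ≤ D.card := by
    rw [hD]
    have h3 : (fib B (Pj n (k + 1) k N) a₀).image
        (fun x => (QuotientAddGroup.mk x : (Fin n → V) ⧸ Mk n V (k + 1))) =
        ((fib B (Pj n (k + 1) k N) a₀).image (tr k)).image
          (fun x => (QuotientAddGroup.mk x : (Fin n → V) ⧸ Mk n V (k + 1))) := by
      rw [Finset.image_image]
      refine Finset.image_congr fun x _ => ?_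
      simp only [Function.comp]
      rw [QuotientAddGroup.eq, mem_Mk]
      intro i hi
      rw [Pi.add_apply, Pi.neg_apply, tr_apply, if_pos (by omega), neg_add_cancel]
    rw [h3]
    exact Finset.card_image_le
  have hDA : D ⊆ B.image (tr k) := Finset.image_subset_image (Finset.filter_subset _ _)
  have hDne : D.Nonempty := (Finset.card_pos.1 (fib_pos ha₀)).image _
  have hNpos : (0 : ℝ) < Nat.card N := by exact_mod_cast Nat.card_pos
  have hcov : ((Nk n k N + D).card : ℝ) ≤ Real.exp ((k + 1) * ε) * D.card := by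
    have h3 : Nk n k N + D ⊆ (Nk n k N).image (fun x => tr k a₀ + x) := by
      intro z hz
      obtain ⟨u, hu, d, hd, rfl⟩ := Finset.mem_add.1 hz
      obtain ⟨a, ha, rfl⟩ := Finset.mem_image.1 hd
      refine Finset.mem_image.2 ⟨u + (tr k a - tr k a₀), ?_, by abel⟩
      rw [mem_Nk] at hu ⊢
      intro i
      have h4 := (mem_fib.1 ha).2
      rw [mem_Pj] at h4
      have h5 := h4 i
      rw [Pi.add_apply, Pi.sub_apply, tr_apply, tr_apply]
      by_cases hi : (i : ℕ) ≤ k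
      · rw [if_pos hi, if_pos hi]
        refine ⟨N.add_mem (hu i).1 ?_, fun h => absurd h (by omega)⟩
        have h6 := h5.1 (by omega)
        rw [Pi.add_apply, Pi.neg_apply] at h6
        have e : a i - a₀ i = -a₀ i + a i := by abel
        rw [e]
        exact h6
      · rw [if_neg hi, if_neg hi, sub_self, add_zero]
        exact hu i
    have h4 : ((Nk n k N + D).card : ℝ) ≤ (Nat.card N : ℝ) ^ (k + 1) := by
      have h5 := (Finset.card_le_card h3).trans (Finset.card_image_le.trans (card_Nk_le hk N))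
      exact_mod_cast h5
    have h5 : (Nat.card N : ℝ) ^ (k + 1) ≤ Real.exp ((k + 1) * ε) * D.card := by
      have h6 : (Nat.card N : ℝ) ^ (k + 1) = Real.exp ((k + 1) * Real.log (Nat.card N)) := by
        rw [show ((k : ℝ) + 1) = ((k + 1 : ℕ) : ℝ) by push_cast; ring, ← Real.log_pow,
          Real.exp_log (by positivity)]
      rw [h6]
      have h7 : Real.exp ((k + 1) * Real.log (Nat.card N)) ≤ Real.exp ((k + 1) * ε) *
          Real.exp (Sym2.hB A (Mk n V (k + 1)) - Sym2.hB A (Pj n (k + 1) k N)) := by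
        rw [← Real.exp_add, Real.exp_le_exp]
        push_cast at h1
        linarith
      refine h7.trans (mul_le_mul_of_nonneg_left (h2.trans ?_) (Real.exp_pos _).le)
      exact_mod_cast hcardD
    exact h4.trans h5
  obtain ⟨F, hF1, hF2, hF3⟩ := Finset.ruzsa_covering_add hDne hcov
  exact ⟨F, hF1, hF2, hF3.trans (Finset.add_subset_add_left (Finset.sub_subset_sub hDA hDA))⟩

theorem cover_Zk' {A : Finset (Fin n → V)} {k : ℕ} (hk : k < n) {σ : Equiv.Perm (Fin n)}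
    {N : AddSubgroup V} {F : Finset (Fin n → V)}
    (hF : Nk n k N ⊆ F + ((A.image (act σ)).image (tr k) - (A.image (act σ)).image (tr k))) :
    ∃ F' : Finset (Fin n → V), F'.card ≤ F.card ∧ ∃ τ : Equiv.Perm (Fin n),
      ∀ z ∈ Zk n k N, ∃ t ∈ F', ∃ a ∈ A, ∃ b ∈ A,
        z = t + ((act σ a - act τ a) - (act σ b - act τ b)) := by
  refine ⟨F.image (fun t i => t i - t (Fin.cycleRange ⟨k, hk⟩ i)), Finset.card_image_le,
    σ * Fin.cycleRange ⟨k, hk⟩, ?_⟩
  intro s hs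
  obtain ⟨u, hu, rfl⟩ := exists_shift hk hs
  obtain ⟨t, ht, d, hd, rfl⟩ := Finset.mem_add.1 (hF hu)
  obtain ⟨d1, hd1, d2, hd2, rfl⟩ := Finset.mem_sub.1 hd
  obtain ⟨a', ha', rfl⟩ := Finset.mem_image.1 hd1
  obtain ⟨b', hb', rfl⟩ := Finset.mem_image.1 hd2
  obtain ⟨a, ha, rfl⟩ := Finset.mem_image.1 ha'
  obtain ⟨b, hb, rfl⟩ := Finset.mem_image.1 hb'
  refine ⟨_, Finset.mem_image_of_mem _ ht, a, ha, b, hb, ?_⟩
  funext i
  have h1 := tr_shift hk (act σ a) i
  have h2 := tr_shift hk (act σ b) i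
  have e1 : act (σ * Fin.cycleRange ⟨k, hk⟩) a i = act σ a (Fin.cycleRange ⟨k, hk⟩ i) := rfl
  have e2 : act (σ * Fin.cycleRange ⟨k, hk⟩) b i = act σ b (Fin.cycleRange ⟨k, hk⟩ i) := rfl
  simp only [Pi.add_apply, Pi.sub_apply, e1, e2]
  rw [← h1, ← h2]
  abel

omit [Fintype V] in
/-- permuted copies are covered by few translates of the difference set -/
theorem cov1 {A : Finset (Fin n → V)} (hA : A.Nonempty) {K : ℝ}
    (hK : ∀ σ, ((A + A.image (act σ)).card : ℝ) ≤ K * A.card) (σ : Equiv.Perm (Fin n)) :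
    ∃ F : Finset (Fin n → V), (F.card : ℝ) ≤ K ∧ ∀ a ∈ A, ∃ f ∈ F, ∃ p ∈ A, ∃ q ∈ A,
      act σ a = f + (p - q) := by
  have h1 : ((A.image (act σ) + A).card : ℝ) ≤ K * A.card := by
    rw [add_comm]
    exact hK σ
  obtain ⟨F, _, hF2, hF3⟩ := Finset.ruzsa_covering_add hA h1
  refine ⟨F, hF2, fun a ha => ?_⟩
  obtain ⟨f, hf, d, hd, h⟩ := Finset.mem_add.1 (hF3 (Finset.mem_image_of_mem _ ha))
  obtain ⟨p, hp, q, hq, rfl⟩ := Finset.mem_sub.1 hd
  exact ⟨f, hf, p, hp, q, hq, h.symm⟩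

omit [Fintype V] in
theorem mem_four {Γ : Type*} [AddCommGroup Γ] [DecidableEq Γ] {A : Finset Γ} {a b c d : Γ}
    (ha : a ∈ A) (hb : b ∈ A) (hc : c ∈ A) (hd : d ∈ A) : a + b + c + d ∈ 4 • A := by
  have e4 : (4 : ℕ) • A = A + A + A + A := by simp [succ_nsmul]
  rw [e4]
  exact Finset.add_mem_add (Finset.add_mem_add (Finset.add_mem_add ha hb) hc) hd

omit [Fintype V] in
theorem cov4 {A : Finset (Fin n → V)} (hA : A.Nonempty) {K : ℝ}
    (hK : ∀ σ, ((A + A.image (act σ)).card : ℝ) ≤ K * A.card) (σ τ : Equiv.Perm (Fin n)) :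
    ∃ G : Finset (Fin n → V), (G.card : ℝ) ≤ K ^ 4 ∧ ∀ a ∈ A, ∀ b ∈ A, ∃ g ∈ G,
      ∃ u ∈ 4 • A, ∃ v ∈ 4 • A, (act σ a - act τ a) - (act σ b - act τ b) = g + (u - v) := by
  obtain ⟨F, hF1, hF2⟩ := cov1 hA hK σ
  obtain ⟨G, hG1, hG2⟩ := cov1 hA hK τ
  have hK0 : 0 ≤ K := le_trans (Nat.cast_nonneg _) hF1
  refine ⟨(F - G) - (F - G), ?_, ?_⟩
  · have h1 := Finset.card_sub_le (s := F - G) (t := F - G)
    have h2 := Finset.card_sub_le (s := F) (t := G)
    have h3 : ((F - G).card : ℝ) ≤ K * K := by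
      have h4 : ((F - G).card : ℝ) ≤ F.card * G.card := by exact_mod_cast h2
      exact h4.trans (mul_le_mul hF1 hG1 (Nat.cast_nonneg _) hK0)
    have h5 : (((F - G) - (F - G)).card : ℝ) ≤ (F - G).card * (F - G).card := by
      exact_mod_cast h1
    refine h5.trans ((mul_le_mul h3 h3 (Nat.cast_nonneg _) (by positivity)).trans (le_of_eq ?_))
    ring
  · intro a ha b hb
    obtain ⟨f1, hf1, p1, hp1, q1, hq1, e1⟩ := hF2 a ha
    obtain ⟨f2, hf2, p2, hp2, q2, hq2, e2⟩ := hG2 a ha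
    obtain ⟨f3, hf3, p3, hp3, q3, hq3, e3⟩ := hF2 b hb
    obtain ⟨f4, hf4, p4, hp4, q4, hq4, e4⟩ := hG2 b hb
    refine ⟨(f1 - f2) - (f3 - f4), Finset.sub_mem_sub (Finset.sub_mem_sub hf1 hf2)
      (Finset.sub_mem_sub hf3 hf4), p1 + q2 + q3 + p4, mem_four hp1 hq2 hq3 hp4,
      q1 + p2 + p3 + q4, mem_four hq1 hp2 hp3 hq4, ?_⟩
    rw [e1, e2, e3, e4]
    abel

/-- **Almost periods.** -/
theorem card_add_N0' {A : Finset (Fin n → V)} (hA : A.Nonempty) {K : ℝ}
    (hK : ∀ σ, ((A + A.image (act σ)).card : ℝ) ≤ K * A.card) {k : ℕ} (hk : k < n)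
    (hk2 : n ≤ 2 * k) (N : AddSubgroup V) {ε : ℝ}
    (h : hB A (Ek n k N) + Real.log (Nat.card N) ≤ hB A (Mk n V (k + 1)) + ε) :
    ((A + N0 n N).card : ℝ) ≤ Real.exp ((k + 1) * ε) ^ 2 * K ^ 25 * A.card := by
  have hK1 := one_le_K hA hK
  have hAA : ((A + A).card : ℝ) ≤ K * A.card := by
    have h1 := hK 1
    have e : A.image (act 1) = A := by
      have : ⇑(act (V := V) (1 : Equiv.Perm (Fin n))) = id := by
        funext x i
        rfl
      rw [this, Finset.image_id]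
    rwa [e] at h1
  obtain ⟨σ, F, hF1, hF2, hF3⟩ := cover_Nk' hA hk N h
  obtain ⟨F', hF', τ, hZ⟩ := cover_Zk' hk hF3
  obtain ⟨G1, hG1, hG1'⟩ := cov4 hA hK σ τ
  obtain ⟨G2, hG2, hG2'⟩ := cov4 hA hK (σ * Fin.revPerm) (τ * Fin.revPerm)
  set F'' := F'.image (act (V := V) Fin.revPerm) with hF''
  have e9 : (9 : ℕ) • A = A + (4 • A + 4 • A) := by
    rw [← add_nsmul, show (9 : ℕ) = 1 + (4 + 4) from rfl, add_nsmul, one_nsmul]
  have e8 : (8 : ℕ) • A = 4 • A + 4 • A := by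
    rw [← add_nsmul]
  have hsub : A + N0 n N ⊆ (F' + F'') + ((G1 + G2) + (9 • A - 8 • A)) := by
    intro z hz
    obtain ⟨a, ha, s, hs, rfl⟩ := Finset.mem_add.1 hz
    obtain ⟨s1, hs1, s2, hs2, rfl⟩ := Finset.mem_add.1 (N0_sub hk hk2 N hs)
    obtain ⟨s3, hs3, rfl⟩ := Finset.mem_image.1 hs2
    obtain ⟨t1, ht1, a1, ha1, b1, hb1, e1⟩ := hZ s1 hs1
    obtain ⟨t2, ht2, a2, ha2, b2, hb2, e2⟩ := hZ s3 hs3
    obtain ⟨g1, hg1, u1, hu1, v1, hv1, e3⟩ := hG1' a1 ha1 b1 hb1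
    obtain ⟨g2, hg2, u2, hu2, v2, hv2, e4⟩ := hG2' a2 ha2 b2 hb2
    have e5 : (fun i => s3 (Fin.rev i)) = act Fin.revPerm t2 + (g2 + (u2 - v2)) := by
      have e6 : (fun i => s3 (Fin.rev i)) = act Fin.revPerm s3 := rfl
      rw [e6, e2, map_add, map_sub, map_sub, map_sub, act_act, act_act, act_act, act_act, e4]
    have e6 : a + (s1 + fun i => s3 (Fin.rev i)) = (t1 + act Fin.revPerm t2) +
        ((g1 + g2) + ((a + (u1 + u2)) - (v1 + v2))) := by
      rw [e5, e1, e3]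
      abel
    rw [e6, e9, e8]
    exact Finset.add_mem_add (Finset.add_mem_add ht1 (Finset.mem_image_of_mem _ ht2))
      (Finset.add_mem_add (Finset.add_mem_add hg1 hg2) (Finset.sub_mem_sub
        (Finset.add_mem_add ha (Finset.add_mem_add hu1 hu2)) (Finset.add_mem_add hv1 hv2)))
  have h1 : ((A + N0 n N).card : ℝ) ≤
      ((F'.card : ℝ) * F''.card) * (((G1.card : ℝ) * G2.card) * (9 • A - 8 • A).card) := by
    have h2 := (Finset.card_le_card hsub).trans (Finset.card_add_le)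
    have h3 := Finset.card_add_le (s := F') (t := F'')
    have h4 := Finset.card_add_le (s := G1 + G2) (t := 9 • A - 8 • A)
    have h5 := Finset.card_add_le (s := G1) (t := G2)
    have h6 := h2.trans (Nat.mul_le_mul h3 (h4.trans (Nat.mul_le_mul_right _ h5)))
    exact_mod_cast h6
  have h2 := iter_le hA hAA 9 8
  have h4 : (F'.card : ℝ) ≤ Real.exp ((k + 1) * ε) := by
    have : (F'.card : ℝ) ≤ F.card := by exact_mod_cast hF'
    exact this.trans hF2
  have h5 : (F''.card : ℝ) ≤ Real.exp ((k + 1) * ε) := by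
    have : (F''.card : ℝ) ≤ F'.card := by exact_mod_cast Finset.card_image_le
    exact this.trans h4
  have hK0 : 0 ≤ K := by linarith
  generalize ((9 • A - 8 • A).card : ℝ) = c at h1 h2
  have hc : c ≤ K ^ (9 + 8) * A.card := h2
  have h6 : ((G1.card : ℝ) * G2.card) ≤ K ^ 4 * K ^ 4 :=
    mul_le_mul hG1 hG2 (Nat.cast_nonneg _) (by positivity)
  have h7 : ((F'.card : ℝ) * F''.card) ≤
      Real.exp ((k + 1) * ε) * Real.exp ((k + 1) * ε) :=
    mul_le_mul h4 h5 (Nat.cast_nonneg _) (Real.exp_pos _).le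
  have hG0 : (0 : ℝ) ≤ (G1.card : ℝ) * G2.card := mul_nonneg (Nat.cast_nonneg _) (Nat.cast_nonneg _)
  have hF0 : (0 : ℝ) ≤ (F'.card : ℝ) * F''.card := mul_nonneg (Nat.cast_nonneg _) (Nat.cast_nonneg _)
  calc ((A + N0 n N).card : ℝ) ≤ ((F'.card : ℝ) * F''.card) * (((G1.card : ℝ) * G2.card) * c) := h1
    _ ≤ ((F'.card : ℝ) * F''.card) * (((G1.card : ℝ) * G2.card) * (K ^ (9 + 8) * A.card)) :=
        mul_le_mul_of_nonneg_left (mul_le_mul_of_nonneg_left hc hG0) hF0
    _ ≤ (Real.exp ((k + 1) * ε) * Real.exp ((k + 1) * ε)) *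
        ((K ^ 4 * K ^ 4) * (K ^ (9 + 8) * A.card)) :=
        mul_le_mul h7 (mul_le_mul_of_nonneg_right h6 (by positivity))
          (mul_nonneg hG0 (by positivity)) (by positivity)
    _ = _ := by ring

end Pool.Agent.T9h99.Sym2
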