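import Pool.Agent.T9h99.Sym2.Dense
set_option autoImplicit false

/-! A nearly symmetric set is nearly constant modulo the subgroup. -/

open scoped Classical Pointwise
set_option linter.unusedSectionVars false
set_option linter.unusedVariables false

namespace Pool.Agent.T9h99.Sym2

open H137.PFR H137.TwoPow H137.Weak Pool.Agent.T9h99.Sym

/-- the family restricted to a finite set of indices -/
noncomputable def fam {ι γ : Type*} (S : Finset ι) (Y : ι → γ) : ι → Option γ :=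
  fun i => if i ∈ S then some (Y i) else none

theorem fam_eq {ι γ : Type*} {S : Finset ι} {Y Y' : ι → γ} :
    fam S Y = fam S Y' ↔ ∀ i ∈ S, Y i = Y' i := by
  constructor
  · intro h i hi
    have h1 := congrFun h i
    unfold fam at h1
    rw [if_pos hi, if_pos hi, Option.some_inj] at h1
    exact h1
  · intro h
    funext i
    unfold fam
    by_cases hi : i ∈ S
    · rw [if_pos hi, if_pos hi, h i hi]
    · rw [if_neg hi, if_neg hi]

/-- many observables, each of them nearly determined by `X` -/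
theorem Hg_family {Ω α ι γ : Type*} [Fintype Ω] {w : Ω → ℝ} (hw : Law w) (X : Ω → α)
    (Y : ι → Ω → γ) {c : ℝ} (S : Finset ι)
    (h : ∀ i ∈ S, Hg w (fun ω => (X ω, Y i ω)) ≤ Hg w X + c) :
    Hg w (fun ω => (X ω, fam S (fun i => Y i ω))) ≤ Hg w X + S.card * c := by
  induction S using Finset.induction_on with
  | empty =>
    have h1 : Hg w (fun ω => (X ω, fam ∅ (fun i => Y i ω))) = Hg w X := by
      refine Hg_congr fun ω ω' => ?_
      rw [Prod.mk.injEq, fam_eq]
      exact ⟨fun h => h.1, fun h => ⟨h, fun i hi => absurd hi (Finset.notMem_empty i)⟩⟩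
    rw [h1]
    simp
  | insert j S hj ih =>
    have h1 := ih fun i hi => h i (Finset.mem_insert_of_mem hi)
    have h2 := h j (Finset.mem_insert_self j S)
    have h3 : Hg w (fun ω => (X ω, fam (insert j S) (fun i => Y i ω))) +
        Hg w X ≤ Hg w (fun ω => (X ω, fam S (fun i => Y i ω))) +
          Hg w (fun ω => (X ω, Y j ω)) := by
      refine Hg_sub_of hw ?_ ?_ ?_
      · intro ω ω' h
        exact (Prod.mk.inj h).1
      · intro ω ω' h
        exact (Prod.mk.inj h).1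
      · intro ω ω' h h'
        rw [Prod.mk.injEq, fam_eq] at h ⊢
        rw [Prod.mk.injEq] at h'
        refine ⟨h.1, fun i hi => ?_⟩
        rcases Finset.mem_insert.1 hi with hi | hi
        · rw [hi]
          exact h'.2
        · exact h.2 i hi
    rw [Finset.card_insert_of_notMem hj]
    push_cast
    linarith

variable {n : ℕ} {V : Type*} [AddCommGroup V]

/-- entropy of the difference modulo `B`, given the pair of permutations -/
noncomputable def gB (A : Finset (Fin n → V)) (B : AddSubgroup (Fin n → V)) : ℝ :=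
  Hg (prod (wO A) (wO A)) (fun p => (PP A p, cl B (Zz A p)))

/-- entropy of the difference modulo `B` with the difference of the labels -/
theorem ee_eq {A : Finset (Fin n → V)} (B : AddSubgroup (Fin n → V)) :
    Hg (prod (wO A) (wO A)) (fun p => (ee A p, cl B (Zz A p))) = kB A B + hB A B := by
  rw [kB_eq]
  ring

theorem PP_one {A : Finset (Fin n → V)} {p q : Om A × Om A} (h : PP A p = PP A q) :
    p.1.1 = q.1.1 := by
  have h1 : (p.1.1, p.2.1) = (q.1.1, q.2.1) := h
  exact (Prod.mk.inj h1).1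

theorem PP_two {A : Finset (Fin n → V)} {p q : Om A × Om A} (h : PP A p = PP A q) :
    p.2.1 = q.2.1 := by
  have h1 : (p.1.1, p.2.1) = (q.1.1, q.2.1) := h
  exact (Prod.mk.inj h1).2

theorem ee_of_PP {A : Finset (Fin n → V)} {p q : Om A × Om A} (h : PP A p = PP A q) :
    ee A p = ee A q := by
  have e1 := PP_one h
  have e2 := PP_two h
  unfold ee
  rw [e1, e2]

theorem cl_mono {Γ : Type*} [AddCommGroup Γ] {B C : AddSubgroup Γ} (h : B ≤ C) {x y : Γ}
    (hxy : cl B x = cl B y) : cl C x = cl C y := by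
  rw [cl_eq] at hxy ⊢
  exact h hxy

theorem gB_step {A : Finset (Fin n → V)} (hA : A.Nonempty) {B C : AddSubgroup (Fin n → V)}
    (h : B ≤ C) : gB A B + (kB A C + hB A C) ≤ gB A C + (kB A B + hB A B) := by
  have hww := law_prod (law_wO hA) (law_wO hA)
  rw [← ee_eq, ← ee_eq]
  unfold gB
  refine Hg_sub_of hww ?_ ?_ ?_
  · intro p q h1
    rw [Prod.mk.injEq] at h1 ⊢
    exact ⟨ee_of_PP h1.1, h1.2⟩
  · intro p q h1
    rw [Prod.mk.injEq] at h1 ⊢
    exact ⟨h1.1, cl_mono h h1.2⟩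
  · intro p q h1 h2
    rw [Prod.mk.injEq] at h1 h2 ⊢
    exact ⟨h1.1, h2.2⟩

theorem gB_le {A : Finset (Fin n → V)} (hA : A.Nonempty) (B : AddSubgroup (Fin n → V)) :
    gB A B ≤ kB A B + hB A B + 1 := by
  have hww := law_prod (law_wO hA) (law_wO hA)
  have h1 : gB A B + Hg (prod (wO A) (wO A)) (ee A) ≤
      Hg (prod (wO A) (wO A)) (PP A) +
        Hg (prod (wO A) (wO A)) (fun p => (ee A p, cl B (Zz A p))) := by
    unfold gB
    refine Hg_sub_of hww ?_ ?_ ?_
    · intro p q h1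
      exact ee_of_PP h1
    · intro p q h1
      exact congrArg Prod.fst h1
    · intro p q h1 h2
      rw [Prod.mk.injEq] at h2 ⊢
      exact ⟨h1, h2.2⟩
  rw [ee_eq] at h1
  have h2 := PP_le_ee hA
  linarith

theorem kB_top_le {A : Finset (Fin n → V)} (hA : A.Nonempty) : kB A ⊤ ≤ Real.log (NP n) := by
  have hww := law_prod (law_wO hA) (law_wO hA)
  rw [kB_eq, hB_top hA]
  have h1 : Hg (prod (wO A) (wO A)) (fun p => (ee A p, cl ⊤ (Zz A p))) ≤
      Hg (prod (wO A) (wO A)) (PP A) := by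
    refine Hg_le_of hww fun p q h => ?_
    rw [Prod.mk.injEq, cl_eq]
    exact ⟨ee_of_PP h, AddSubgroup.mem_top _⟩
  rw [Hg_PP hA] at h1
  linarith

/-- relabelling of both permutations -/
def relab2 (A : Finset (Fin n → V)) (τ τ' : Equiv.Perm (Fin n)) :
    Om A × Om A ≃ Om A × Om A := Equiv.prodCongr (relab A τ) (relab A τ')

theorem relab2_w (A : Finset (Fin n → V)) (τ τ' : Equiv.Perm (Fin n)) (p : Om A × Om A) :
    prod (wO A) (wO A) (relab2 A τ τ' p) = prod (wO A) (wO A) p := rfl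

theorem pair_class {A : Finset (Fin n → V)} {k : ℕ} (hk : k < n) (N : AddSubgroup V)
    {i i' : Fin n} (hi : k ≤ (i : ℕ)) (hi' : k ≤ (i' : ℕ)) :
    Hg (prod (wO A) (wO A)) (fun p => ((PP A p, cl (Mk n V k) (Zz A p)),
      cl N (act p.1.1 (p.1.2 : Fin n → V) i - act p.2.1 (p.2.2 : Fin n → V) i'))) =
      gB A (Ek n k N) := by
  set τ : Equiv.Perm (Fin n) := Equiv.swap ⟨k, hk⟩ i with hτ
  set τ' : Equiv.Perm (Fin n) := Equiv.swap ⟨k, hk⟩ i' with hτ'
  have hfix : ∀ (l : Fin n), k ≤ (l : ℕ) → ∀ j : Fin n, (j : ℕ) < k →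
      Equiv.swap (⟨k, hk⟩ : Fin n) l j = j := by
    intro l hl j hj
    refine Equiv.swap_apply_of_ne_of_ne ?_ ?_
    · intro h
      have := congrArg Fin.val h
      simp only at this
      omega
    · intro h
      rw [h] at hj
      omega
  unfold gB
  rw [← Hg_equiv (w := prod (wO A) (wO A)) (fun p => (PP A p, cl (Ek n k N) (Zz A p)))
    (relab2 A τ τ') (relab2_w A τ τ')]
  refine Hg_congr fun p q => ?_
  simp only [Prod.mk.injEq, cl_eq, mem_Ek hk, mem_Mk]
  -- the permutations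
  have e1 : PP A (relab2 A τ τ' p) = PP A (relab2 A τ τ' q) ↔ PP A p = PP A q := by
    change (p.1.1 * τ, p.2.1 * τ') = (q.1.1 * τ, q.2.1 * τ') ↔ (p.1.1, p.2.1) = (q.1.1, q.2.1)
    rw [Prod.mk.injEq, Prod.mk.injEq, mul_left_inj, mul_left_inj]
  have e2 : ∀ (p : Om A × Om A) (j : Fin n), Zz A (relab2 A τ τ' p) j =
      act p.1.1 (p.1.2 : Fin n → V) (τ j) - act p.2.1 (p.2.2 : Fin n → V) (τ' j) :=
    fun _ _ => rfl
  have e3 : ∀ (p : Om A × Om A) (j : Fin n), Zz A p j =
      act p.1.1 (p.1.2 : Fin n → V) j - act p.2.1 (p.2.2 : Fin n → V) j := fun _ _ => rfl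
  rw [e1]
  have e4 : (∀ j : Fin n, (j : ℕ) < k →
      (-Zz A (relab2 A τ τ' p) + Zz A (relab2 A τ τ' q)) j = 0) ↔
      ∀ j : Fin n, (j : ℕ) < k → (-Zz A p + Zz A q) j = 0 := by
    refine forall_congr' fun j => forall_congr' fun hj => ?_
    rw [Pi.add_apply, Pi.neg_apply, Pi.add_apply, Pi.neg_apply, e2, e2, e3, e3, hτ, hτ',
      hfix i hi j hj, hfix i' hi' j hj]
  have e5 : (-Zz A (relab2 A τ τ' p) + Zz A (relab2 A τ τ' q)) ⟨k, hk⟩ =
      -(act p.1.1 (p.1.2 : Fin n → V) i - act p.2.1 (p.2.2 : Fin n → V) i') +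
        (act q.1.1 (q.1.2 : Fin n → V) i - act q.2.1 (q.2.2 : Fin n → V) i') := by
    rw [Pi.add_apply, Pi.neg_apply, e2, e2, hτ, hτ', Equiv.swap_apply_left,
      Equiv.swap_apply_left]
  rw [e4, e5]
  tauto

/-- vectors whose coordinates in `J` agree modulo `N` -/
def RJ (N : AddSubgroup V) (J : Finset (Fin n)) : AddSubgroup (Fin n → V) where
  carrier := {x | ∀ i ∈ J, ∀ j ∈ J, x i - x j ∈ N}
  zero_mem' := fun i _ j _ => by
    simp only [Pi.zero_apply, sub_zero]
    exact N.zero_mem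
  add_mem' := fun {x y} hx hy i hi j hj => by
    have e : (x + y) i - (x + y) j = (x i - x j) + (y i - y j) := by
      rw [Pi.add_apply, Pi.add_apply]
      abel
    rw [e]
    exact N.add_mem (hx i hi j hj) (hy i hi j hj)
  neg_mem' := fun {x} hx i hi j hj => by
    have e : (-x) i - (-x) j = -(x i - x j) := by
      rw [Pi.neg_apply, Pi.neg_apply]
      abel
    rw [e]
    exact N.neg_mem (hx i hi j hj)

theorem mem_RJ {N : AddSubgroup V} {J : Finset (Fin n)} {x : Fin n → V} :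
    x ∈ RJ N J ↔ ∀ i ∈ J, ∀ j ∈ J, x i - x j ∈ N := Iff.rfl

theorem Hg_fst {A : Finset (Fin n → V)} (hA : A.Nonempty) :
    Hg (wO A) (fun ω => ω.1) = Real.log (NP n) := by
  have h1 : Hg (wO A) (fun ω => ω.1) = Hg (wO A) (fun ω => (fun σ => σ) ω.1) := rfl
  rw [h1, Hg_map (wO A) (fun ω => ω.1) (fun σ => σ), push_wO_fst hA, Hg_uP]

/-- the last coordinates agree -/
theorem hB_RJ_le {A : Finset (Fin n → V)} (hA : A.Nonempty) {k : ℕ} (hk : k < n)
    (N : AddSubgroup V) {c : ℝ} (h : gB A (Ek n k N) ≤ gB A (Mk n V k) + c) :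
    hB A (Mk n V k) + hB A (RJ N (Finset.univ.filter (fun i : Fin n => k ≤ (i : ℕ)))) ≤
      gB A (Mk n V k) + ((n - k : ℕ) : ℝ) * c := by
  have hw := law_wO hA
  have hww := law_prod hw hw
  set S : Finset (Fin n) := Finset.univ.filter (fun i : Fin n => k ≤ (i : ℕ)) with hS
  have hScard : S.card = n - k := by
    have h1 : S = Finset.Ici (⟨k, hk⟩ : Fin n) := by
      ext i
      rw [hS, Finset.mem_filter, Finset.mem_Ici, Fin.le_def]
      exact ⟨fun h => h.2, fun h => ⟨Finset.mem_univ _, h⟩⟩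
    rw [h1, Fin.card_Ici]
  have h1 := Hg_family hww (fun p => (PP A p, cl (Mk n V k) (Zz A p)))
    (fun (i' : Fin n) p => cl N (act p.1.1 (p.1.2 : Fin n → V) ⟨k, hk⟩ -
      act p.2.1 (p.2.2 : Fin n → V) i')) (c := c) S (fun i' hi' => by
        rw [pair_class hk N (i := ⟨k, hk⟩) (i' := i') (le_refl _) (Finset.mem_filter.1 hi').2]
        exact h)
  rw [hScard] at h1
  have e0 : Hg (prod (wO A) (wO A)) (fun p => (PP A p, cl (Mk n V k) (Zz A p))) =
    gB A (Mk n V k) := rfl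
  rw [e0] at h1
  -- submodularity
  have h2 : Hg (prod (wO A) (wO A)) (fun p =>
      ((fun ω : Om A => (ω.1, cl (Mk n V k) (act ω.1 (ω.2 : Fin n → V)))) p.1,
        (fun ω : Om A => (ω.1, ω.2)) p.2)) +
      Hg (prod (wO A) (wO A)) (fun p => ((fun ω : Om A => ω.1) p.1,
        (fun ω : Om A => (ω.1, cl (RJ N S) (act ω.1 (ω.2 : Fin n → V)))) p.2)) ≤
      Hg (prod (wO A) (wO A)) (fun p => ((PP A p, cl (Mk n V k) (Zz A p)),
        fam S (fun i' => cl N (act p.1.1 (p.1.2 : Fin n → V) ⟨k, hk⟩ -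
          act p.2.1 (p.2.2 : Fin n → V) i')))) +
      Hg (prod (wO A) (wO A)) (fun p => ((fun ω : Om A => ω.1) p.1,
        (fun ω : Om A => (ω.1, ω.2)) p.2)) := by
    refine Hg_sub_of hww ?_ ?_ ?_
    · intro p q hpq
      rw [Prod.mk.injEq, Prod.mk.injEq, fam_eq] at hpq
      obtain ⟨⟨g1, g2⟩, g3⟩ := hpq
      have e1 := PP_one g1
      have e2 := PP_two g1
      rw [Prod.mk.injEq]
      refine ⟨e1, ?_⟩
      beta_reduce
      rw [Prod.mk.injEq]
      refine ⟨e2, ?_⟩
      rw [cl_eq, mem_RJ]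
      intro i hi j hj
      have g4 := g3 i hi
      have g5 := g3 j hj
      rw [cl_eq] at g4 g5
      have g6 := N.sub_mem g5 g4
      rw [Pi.add_apply, Pi.neg_apply, Pi.add_apply, Pi.neg_apply]
      refine (congrArg (· ∈ N) ?_).mp g6
      abel
    · intro p q hpq
      rw [Prod.mk.injEq] at hpq ⊢
      beta_reduce at hpq ⊢
      rw [Prod.mk.injEq] at hpq ⊢
      exact ⟨hpq.1, hpq.2.1, by rw [hpq.2.1, hpq.2.2]⟩
    · intro p q hpq hpq'
      rw [Prod.mk.injEq, Prod.mk.injEq] at hpq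
      rw [Prod.mk.injEq] at hpq' ⊢
      beta_reduce at hpq' ⊢
      obtain ⟨⟨g1, g2⟩, g3⟩ := hpq
      have e1 := PP_one g1
      obtain ⟨g5, g67⟩ := hpq'
      obtain ⟨g6, g7⟩ := Prod.mk.inj g67
      refine ⟨?_, g67⟩
      rw [Prod.mk.injEq]
      refine ⟨e1, ?_⟩
      rw [cl_eq, mem_Mk] at g2 ⊢
      intro j hj
      have g4 := g2 j hj
      have g8 : act p.2.1 (p.2.2 : Fin n → V) = act q.2.1 (q.2.2 : Fin n → V) := by
        rw [g6, g7]
      rw [Pi.add_apply, Pi.neg_apply] at g4 ⊢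
      have e3 : ∀ p : Om A × Om A, Zz A p j =
        act p.1.1 (p.1.2 : Fin n → V) j - act p.2.1 (p.2.2 : Fin n → V) j := fun _ => rfl
      rw [e3, e3, g8] at g4
      rw [← g4]
      abel
  rw [Hg_prod hw hw (fun ω : Om A => (ω.1, cl (Mk n V k) (act ω.1 (ω.2 : Fin n → V))))
      (fun ω : Om A => (ω.1, ω.2)),
    Hg_prod hw hw (fun ω : Om A => ω.1)
      (fun ω : Om A => (ω.1, cl (RJ N S) (act ω.1 (ω.2 : Fin n → V)))),
    Hg_prod hw hw (fun ω : Om A => ω.1) (fun ω : Om A => (ω.1, ω.2)), Hg_fst hA] at h2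
  have e1 : Hg (wO A) (fun ω : Om A => (ω.1, cl (Mk n V k) (act ω.1 (ω.2 : Fin n → V)))) =
    hB A (Mk n V k) := rfl
  have e2 : Hg (wO A) (fun ω : Om A => (ω.1, cl (RJ N S) (act ω.1 (ω.2 : Fin n → V)))) =
    hB A (RJ N S) := rfl
  rw [e1, e2] at h2
  linarith

end Pool.Agent.T9h99.Sym2
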