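import Pool.Agent.T9h99.Sym2.Gen
set_option autoImplicit false

/-! Sets nearly invariant under the permutations of some of the coordinates. -/

open scoped Classical Pointwise
set_option linter.unusedSectionVars false
set_option linter.unusedVariables false

namespace Pool.Agent.T9h99.Sym2

open Pool.Agent.T9h99.Sym Pool.Agent.TH414.Dil

variable {n : ℕ} {M W : Type*} [AddCommGroup M] [AddCommGroup W]

/-- permutation of the coordinates of the first component -/
def act2 (σ : Equiv.Perm (Fin n)) (a : (Fin n → M) × W) : (Fin n → M) × W :=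
  (fun i => a.1 (σ i), a.2)

/-- the diagonal embedding of the second component -/
def em (n : ℕ) (M W : Type*) [AddCommGroup M] [AddCommGroup W] :
    (Fin n → M) × W →+ (Fin n → M × W) where
  toFun a := fun i => (a.1 i, a.2)
  map_zero' := rfl
  map_add' _ _ := rfl

theorem em_inj (hn : 0 < n) : Function.Injective (em n M W) := by
  intro a b h
  refine Prod.ext (funext fun i => ?_) ?_
  · exact (Prod.mk.inj (congrFun h i)).1
  · exact (Prod.mk.inj (congrFun h ⟨0, hn⟩)).2

theorem em_act (σ : Equiv.Perm (Fin n)) (a : (Fin n → M) × W) :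
    em n M W (act2 σ a) = act σ (em n M W a) := rfl

/-- the group of almost periods -/
def zw (N : AddSubgroup M) (n : ℕ) (W : Type*) [AddCommGroup W] : AddSubgroup ((Fin n → M) × W) :=
  (zs n N).prod ⊥

theorem mem_zw {N : AddSubgroup M} {z : (Fin n → M) × W} :
    z ∈ zw N n W ↔ (∀ i, z.1 i ∈ N) ∧ ∑ i, z.1 i = 0 ∧ z.2 = 0 := by
  unfold zw
  rw [AddSubgroup.mem_prod, mem_zs, AddSubgroup.mem_bot, and_assoc]

theorem zw_finite {N : AddSubgroup M} (hN : Finite N) :
    (zw N n W : Set ((Fin n → M) × W)).Finite := by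
  have h1 : ((zs n N : Set (Fin n → M)) ×ˢ ({0} : Set W)).Finite :=
    (zs_finite hN).prod (Set.finite_singleton 0)
  exact h1

/-- **Partially symmetric sets over arbitrary abelian groups.** -/
theorem near_two [DecidableEq ((Fin n → M) × W)] {A : Finset ((Fin n → M) × W)}
    (hA : A.Nonempty) {K : ℝ}
    (hK : ∀ σ : Equiv.Perm (Fin n), ((A + A.image (act2 σ)).card : ℝ) ≤ K * A.card)
    (hn0 : 0 < n) (hn : 700000000 * Real.log (2 * K) ≤ n) :
    ∃ N : AddSubgroup M, Finite N ∧
      (((A : Set ((Fin n → M) × W)) + (zw N n W : Set ((Fin n → M) × W))).ncard : ℝ) ≤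
        (2 * K) ^ 7001 * A.card ∧
      ∃ T : Finset ((Fin n → M) × W), (T.card : ℝ) ≤ (2 * K) ^ 8776 ∧
        ∀ a ∈ A, ∃ t ∈ T, ∀ i j, (a.1 i - t.1 i) - (a.1 j - t.1 j) ∈ N := by
  set A' := A.image (em n M W) with hA'
  have hcard : A'.card = A.card := Finset.card_image_of_injective _ (em_inj hn0)
  have hK' : Near A' K := by
    intro σ
    rw [hcard]
    refine le_trans ?_ (hK σ)
    have h1 : A' + A'.image (act σ) ⊆ (A + A.image (act2 σ)).image (em n M W) := by
      intro x hx
      obtain ⟨y, hy, z, hz, rfl⟩ := Finset.mem_add.1 hx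
      obtain ⟨a, ha, rfl⟩ := Finset.mem_image.1 hy
      obtain ⟨z', hz', rfl⟩ := Finset.mem_image.1 hz
      obtain ⟨b, hb, rfl⟩ := Finset.mem_image.1 hz'
      exact Finset.mem_image.2 ⟨a + act2 σ b, Finset.add_mem_add ha
        (Finset.mem_image_of_mem _ hb), map_add _ _ _⟩
    have h2 := (Finset.card_le_card h1).trans Finset.card_image_le
    exact_mod_cast h2
  obtain ⟨N', hN', hN1, T, hT1, hT2⟩ := near_gen (hA.image _) hK' hn
  rw [← hA'] at hN1 hT2
  rw [hcard] at hN1
  set N : AddSubgroup M := N'.comap (AddMonoidHom.inl M W) with hN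
  have hmem : ∀ m : M, m ∈ N ↔ (m, (0 : W)) ∈ N' := fun m => Iff.rfl
  have hfin : Finite N := by
    refine Finite.of_injective (fun x : N => (⟨((x : M), (0 : W)), (hmem _).1 x.2⟩ : N')) ?_
    intro x y hxy
    have h1 : ((x : M), (0 : W)) = ((y : M), (0 : W)) := congrArg Subtype.val hxy
    exact Subtype.ext (Prod.mk.inj h1).1
  refine ⟨N, hfin, ?_, ?_⟩
  · have hF : ((A' : Set (Fin n → M × W)) + (zs n N' : Set (Fin n → M × W))).Finite :=
      (Finset.finite_toSet A').add (zs_finite hN')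
    have h1 : ((A : Set ((Fin n → M) × W)) + (zw N n W : Set ((Fin n → M) × W))).ncard ≤
        ((A' : Set (Fin n → M × W)) + (zs n N' : Set (Fin n → M × W))).ncard := by
      refine Set.ncard_le_ncard_of_injOn (em n M W) ?_ ((em_inj hn0).injOn) hF
      intro x hx
      obtain ⟨a, ha, z, hz, rfl⟩ := Set.mem_add.1 hx
      rw [map_add]
      refine Set.add_mem_add (Finset.mem_coe.2 (Finset.mem_image_of_mem _ ha)) ?_
      obtain ⟨g1, g2, g3⟩ := mem_zw.1 hz
      refine mem_zs.2 ⟨fun i => ?_, ?_⟩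
      · have e : em n M W z i = (z.1 i, z.2) := rfl
        rw [e, g3]
        exact (hmem _).1 (g1 i)
      · have e : ∑ i, em n M W z i = ∑ i, ((z.1 i, z.2) : M × W) := rfl
        rw [e, g3]
        refine Prod.ext ?_ ?_
        · rw [Prod.fst_sum]
          exact g2
        · rw [Prod.snd_sum]
          simp
    have h2 : ((((A : Set ((Fin n → M) × W)) +
        (zw N n W : Set ((Fin n → M) × W))).ncard : ℕ) : ℝ) ≤
        (((A' : Set (Fin n → M × W)) + (zs n N' : Set (Fin n → M × W))).ncard : ℕ) := by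
      exact_mod_cast h1
    exact h2.trans hN1
  · have hex : ∀ s : Fin n → M × W, ∃ a : (Fin n → M) × W,
        (∃ b ∈ A, ∀ i j, (em n M W b i - s i) - (em n M W b j - s j) ∈ N') →
          a ∈ A ∧ ∀ i j, (em n M W a i - s i) - (em n M W a j - s j) ∈ N' := by
      intro s
      by_cases h : ∃ b ∈ A, ∀ i j, (em n M W b i - s i) - (em n M W b j - s j) ∈ N'
      · obtain ⟨b, hb⟩ := h
        exact ⟨b, fun _ => hb⟩
      · exact ⟨0, fun h' => absurd h' h⟩
    choose ρ hρ using hex
    refine ⟨T.image ρ, ?_, ?_⟩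
    · have : ((T.image ρ).card : ℝ) ≤ T.card := by exact_mod_cast Finset.card_image_le
      exact this.trans hT1
    · intro a ha
      obtain ⟨s, hs, h1⟩ := hT2 (em n M W a) (Finset.mem_image_of_mem _ ha)
      obtain ⟨h2, h3⟩ := hρ s ⟨a, ha, h1⟩
      refine ⟨ρ s, Finset.mem_image_of_mem _ hs, fun i j => ?_⟩
      rw [hmem]
      have h5 := N'.sub_mem (h1 i j) (h3 i j)
      have e : em n M W a i - s i - (em n M W a j - s j) -
          (em n M W (ρ s) i - s i - (em n M W (ρ s) j - s j)) =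
          ((a.1 i - (ρ s).1 i) - (a.1 j - (ρ s).1 j), (0 : W)) := by
        have e1 : ∀ (b : (Fin n → M) × W) (l : Fin n), em n M W b l = (b.1 l, b.2) :=
          fun _ _ => rfl
        rw [e1, e1, e1, e1]
        refine Prod.ext ?_ ?_
        · simp only [Prod.fst_sub]
          abel
        · simp only [Prod.snd_sub]
          abel
      rw [e] at h5
      exact h5

/-- few values of the sum and the second component, and little torsion: few cosets -/
theorem few_bar2 (hn : 0 < n) {A T : Finset ((Fin n → M) × W)} (N : AddSubgroup M) [Finite N]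
    (hT : ∀ a ∈ A, ∃ t ∈ T, ∀ i j, (a.1 i - t.1 i) - (a.1 j - t.1 j) ∈ N)
    (hfin : {z : M | n • z = 0}.Finite) :
    (bar (zw N n W) A).card ≤
      T.card * ((A.image (fun a => (∑ i, a.1 i, a.2))).card * {z : M | n • z = 0}.ncard) := by
  obtain ⟨hq1, hq2⟩ := torsion_quot (n := n) N hfin
  set i₀ : Fin n := ⟨0, hn⟩ with hi₀
  have hT' : ∀ a : (Fin n → M) × W, ∃ s : (Fin n → M) × W, a ∈ A → s ∈ T ∧
      ∀ i j, (a.1 i - s.1 i) - (a.1 j - s.1 j) ∈ N := by
    intro a
    by_cases ha : a ∈ A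
    · obtain ⟨s, hs⟩ := hT a ha
      exact ⟨s, fun _ => hs⟩
    · exact ⟨0, fun h => absurd h ha⟩
  choose s hs using hT'
  set c : (Fin n → M) × W → (((Fin n → M) × W) × (M × W)) × (M ⧸ N) := fun a =>
    ((s a, (∑ i, a.1 i, a.2)), QuotientAddGroup.mk (a.1 i₀ - (s a).1 i₀)) with hc
  -- the class is determined by `c`
  have hdet : ∀ a ∈ A, ∀ b ∈ A, c a = c b →
      (QuotientAddGroup.mk a : ((Fin n → M) × W) ⧸ zw N n W) = QuotientAddGroup.mk b := by
    intro a ha b hb hab
    have e1 : s a = s b := congrArg (fun p => p.1.1) hab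
    have e2 : ∑ i, a.1 i = ∑ i, b.1 i := congrArg (fun p => p.1.2.1) hab
    have e2' : a.2 = b.2 := congrArg (fun p => p.1.2.2) hab
    have e3 : (QuotientAddGroup.mk (a.1 i₀ - (s a).1 i₀) : M ⧸ N) =
        QuotientAddGroup.mk (b.1 i₀ - (s b).1 i₀) := congrArg (fun p => p.2) hab
    rw [QuotientAddGroup.eq] at e3 ⊢
    rw [mem_zw]
    refine ⟨fun i => ?_, ?_, ?_⟩
    · have h1 := (hs a ha).2 i i₀
      have h2 := (hs b hb).2 i i₀
      rw [e1] at h1 e3
      have e : (-a + b).1 i = (b.1 i - (s b).1 i - (b.1 i₀ - (s b).1 i₀)) -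
          (a.1 i - (s b).1 i - (a.1 i₀ - (s b).1 i₀)) +
          (-(a.1 i₀ - (s b).1 i₀) + (b.1 i₀ - (s b).1 i₀)) := by
        rw [Prod.fst_add, Prod.fst_neg, Pi.add_apply, Pi.neg_apply]
        abel
      rw [e]
      exact N.add_mem (N.sub_mem h2 h1) e3
    · rw [Prod.fst_add, Prod.fst_neg]
      simp only [Pi.add_apply, Pi.neg_apply]
      rw [Finset.sum_add_distrib, Finset.sum_neg_distrib, e2, neg_add_cancel]
    · rw [Prod.snd_add, Prod.snd_neg, e2', neg_add_cancel]
  -- counting the values of `c`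
  have h1 : (bar (zw N n W) A).card ≤ (A.image c).card := by
    have hex : ∀ x : (((Fin n → M) × W) × (M × W)) × (M ⧸ N),
        ∃ y : ((Fin n → M) × W) ⧸ zw N n W, ∀ a ∈ A, c a = x → y = QuotientAddGroup.mk a := by
      intro x
      by_cases h : ∃ a ∈ A, c a = x
      · obtain ⟨a, ha, hax⟩ := h
        exact ⟨QuotientAddGroup.mk a, fun b hb hbx => hdet a ha b hb (hax.trans hbx.symm)⟩
      · exact ⟨0, fun a ha hax => absurd ⟨a, ha, hax⟩ h⟩
    choose y hy using hex
    have h2 : bar (zw N n W) A ⊆ (A.image c).image y := by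
      intro z hz
      obtain ⟨a, ha, rfl⟩ := Finset.mem_image.1 hz
      exact Finset.mem_image.2 ⟨c a, Finset.mem_image_of_mem _ ha, hy _ a ha rfl⟩
    exact (Finset.card_le_card h2).trans Finset.card_image_le
  have h2 : (A.image c).card ≤ {z : M | n • z = 0}.ncard *
      ((A.image c).image (fun x => x.1)).card := by
    refine Finset.card_le_mul_card_image _ _ ?_
    intro p hp
    obtain ⟨x, hx, rfl⟩ := Finset.mem_image.1 hp
    obtain ⟨a, ha, rfl⟩ := Finset.mem_image.1 hx
    refine le_trans ?_ hq2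
    rw [Set.ncard_eq_toFinset_card _ hq1]
    refine Finset.card_le_card_of_injOn (fun x => x.2 - (c a).2) ?_ ?_
    · intro x hx
      rw [Finset.mem_coe, Finset.mem_filter] at hx
      obtain ⟨hx1, hx2⟩ := hx
      obtain ⟨b, hb, rfl⟩ := Finset.mem_image.1 hx1
      rw [Finset.mem_coe, Set.Finite.mem_toFinset]
      have e1 : s b = s a := congrArg Prod.fst hx2
      have e2 : ∑ i, b.1 i = ∑ i, a.1 i := congrArg (fun p => p.2.1) hx2
      change n • ((QuotientAddGroup.mk (b.1 i₀ - (s b).1 i₀) : M ⧸ N) -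
        QuotientAddGroup.mk (a.1 i₀ - (s a).1 i₀)) = 0
      rw [← QuotientAddGroup.mk_sub, ← QuotientAddGroup.mk_nsmul, QuotientAddGroup.eq_zero_iff, e1]
      have h3 : ∑ i, ((a.1 i - (s a).1 i - (a.1 i₀ - (s a).1 i₀)) -
          (b.1 i - (s a).1 i - (b.1 i₀ - (s a).1 i₀))) ∈ N := by
        refine AddSubgroup.sum_mem _ fun i _ => N.sub_mem ((hs a ha).2 i i₀) ?_
        have := (hs b hb).2 i i₀
        rwa [e1] at this
      have h4 : ∑ i, ((a.1 i - (s a).1 i - (a.1 i₀ - (s a).1 i₀)) -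
          (b.1 i - (s a).1 i - (b.1 i₀ - (s a).1 i₀))) =
          n • ((b.1 i₀ - (s a).1 i₀) - (a.1 i₀ - (s a).1 i₀)) := by
        have h5 : ∀ i, ((a.1 i - (s a).1 i - (a.1 i₀ - (s a).1 i₀)) -
            (b.1 i - (s a).1 i - (b.1 i₀ - (s a).1 i₀))) =
            (a.1 i - b.1 i) + ((b.1 i₀ - (s a).1 i₀) - (a.1 i₀ - (s a).1 i₀)) := by
          intro i
          abel
        rw [Finset.sum_congr rfl fun i _ => h5 i, Finset.sum_add_distrib, Finset.sum_sub_distrib,
          e2, sub_self, zero_add, Finset.sum_const, Finset.card_univ, Fintype.card_fin]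
      rw [← h4]
      exact h3
    · intro x hx y hy hxy
      rw [Finset.mem_coe, Finset.mem_filter] at hx hy
      exact Prod.ext (hx.2.trans hy.2.symm) (sub_left_injective hxy)
  have h3 : ((A.image c).image (fun x => x.1)).card ≤
      (T ×ˢ (A.image (fun a => (∑ i, a.1 i, a.2)))).card := by
    refine Finset.card_le_card ?_
    intro p hp
    obtain ⟨x, hx, rfl⟩ := Finset.mem_image.1 hp
    obtain ⟨a, ha, rfl⟩ := Finset.mem_image.1 hx
    exact Finset.mem_product.2 ⟨(hs a ha).1, Finset.mem_image_of_mem _ ha⟩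
  rw [Finset.card_product] at h3
  calc (bar (zw N n W) A).card ≤ (A.image c).card := h1
    _ ≤ _ := h2
    _ ≤ {z : M | n • z = 0}.ncard * (T.card * (A.image (fun a => (∑ i, a.1 i, a.2))).card) :=
        Nat.mul_le_mul_left _ h3
    _ = _ := by ring

end Pool.Agent.T9h99.Sym2
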