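import Pool.Agent.T9h99.Sym2.Cover
import Pool.Agent.T9h99.Sym.Final
set_option autoImplicit false

/-! Nearly symmetric sets of vectors over an arbitrary abelian group. -/

open scoped Classical Pointwise DirectSum
set_option linter.unusedSectionVars false
set_option linter.unusedVariables false

namespace Pool.Agent.T9h99.Sym2

open Pool.Agent.T9h99.Sym

/-- the permuted copies are close to `A` -/
def Near {M : Type*} [AddCommGroup M] {n : ℕ} [DecidableEq (Fin n → M)] (A : Finset (Fin n → M))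
    (K : ℝ) : Prop :=
  ∀ σ : Equiv.Perm (Fin n), ((A + A.image (act σ)).card : ℝ) ≤ K * A.card

theorem Near.one_le {M : Type*} [AddCommGroup M] {n : ℕ} [DecidableEq (Fin n → M)]
    {A : Finset (Fin n → M)} {K : ℝ} (h : Near A K) (hA : A.Nonempty) : 1 ≤ K := by
  have hpos : (0 : ℝ) < A.card := by exact_mod_cast hA.card_pos
  have h1 : (A.card : ℝ) ≤ (A + A.image (act 1)).card := by
    exact_mod_cast Finset.card_le_card_add_right (hA.image _)
  have h2 := h1.trans (h 1)
  by_contra h3
  push Not at h3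
  nlinarith

theorem near_inst {M : Type*} [AddCommGroup M] {n : ℕ} (d1 d2 : DecidableEq (Fin n → M))
    {A : Finset (Fin n → M)} {K : ℝ} (h : @Near M _ n d1 A K) : @Near M _ n d2 A K := by
  rw [Subsingleton.elim d2 d1]
  exact h

/-- images under injective maps on the sums -/
theorem near_image {M M' : Type*} [AddCommGroup M] [AddCommGroup M'] {n : ℕ}
    [DecidableEq (Fin n → M)] [DecidableEq (Fin n → M')] {A : Finset (Fin n → M)} {K : ℝ}
    (h : Near A K) (ψ : M →+ M') (hcard : (A.image (fun a i => ψ (a i))).card = A.card) :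
    Near (A.image (fun a i => ψ (a i))) K := by
  intro σ
  rw [hcard]
  refine le_trans ?_ (h σ)
  have h1 : A.image (fun a i => ψ (a i)) + (A.image (fun a i => ψ (a i))).image (act σ) ⊆
      (A + A.image (act σ)).image (fun a i => ψ (a i)) := by
    intro x hx
    obtain ⟨y, hy, z, hz, rfl⟩ := Finset.mem_add.1 hx
    obtain ⟨a, ha, rfl⟩ := Finset.mem_image.1 hy
    obtain ⟨z', hz', rfl⟩ := Finset.mem_image.1 hz
    obtain ⟨b, hb, rfl⟩ := Finset.mem_image.1 hz'
    refine Finset.mem_image.2 ⟨a + act σ b, Finset.add_mem_add ha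
      (Finset.mem_image_of_mem _ hb), ?_⟩
    funext i
    exact map_add ψ (a i) (b (σ i))
  have h2 := (Finset.card_le_card h1).trans Finset.card_image_le
  exact_mod_cast h2

theorem near_fin' {V : Type*} [AddCommGroup V] [Finite V] {n : ℕ} [DecidableEq (Fin n → V)]
    {A : Finset (Fin n → V)} (hA : A.Nonempty) {K : ℝ}
    (hK : Near A K) (hn : 700000000 * Real.log (2 * K) ≤ n) :
    Concl A ((2 * K) ^ 7001 * A.card) ((2 * K) ^ 8776) := by
  have : Fintype V := Fintype.ofFinite V
  obtain ⟨N, hN1, hT⟩ := near_fin (K := K) hA (near_inst _ _ hK) hn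
  refine ⟨N, inferInstance, ?_, hT⟩
  have h1 : (A : Set (Fin n → V)) + (zs n N : Set (Fin n → V)) ⊆
      ((A + N0 n N : Finset (Fin n → V)) : Set (Fin n → V)) := by
    intro x hx
    obtain ⟨a, ha, z, hz, rfl⟩ := Set.mem_add.1 hx
    exact Finset.mem_coe.2 (Finset.add_mem_add ha (mem_N0.2 hz))
  have h2 := Set.ncard_le_ncard h1 (Finset.finite_toSet _)
  rw [Set.ncard_coe_finset] at h2
  have h3 : ((((A : Set (Fin n → V)) + (zs n N : Set (Fin n → V))).ncard : ℕ) : ℝ) ≤
      (A + N0 n N).card := by exact_mod_cast h2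
  have h4 : ((A + N0 n N).card : ℝ) ≤ (2 * K) ^ 7001 * A.card :=
    le_of_eq_of_le ((Nat.cast_inj (R := ℝ)).2 (add_card_inst _ _ A (N0 n N))) hN1
  exact h3.trans h4

section prod

variable {n r : ℕ} {F : Type*} [AddCommGroup F] [Finite F]

theorem prod_case [DecidableEq (Fin n → (Fin r →₀ ℤ) × F)]
    {A : Finset (Fin n → (Fin r →₀ ℤ) × F)} (hA : A.Nonempty) {K : ℝ}
    (hK : Near A K) (hn : 700000000 * Real.log (2 * K) ≤ n) :
    Concl A ((2 * K) ^ 7001 * A.card) ((2 * K) ^ 8776) := by
  have hK1 := hK.one_le hA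
  have : Fintype F := Fintype.ofFinite F
  have hn2 : 2 ≤ n := by
    have h1 : Real.log 2 ≤ Real.log (2 * K) := Real.log_le_log (by norm_num) (by linarith)
    have h2 := Real.log_two_gt_d9
    have h3 : (2 : ℝ) ≤ n := by linarith
    exact_mod_cast h3
  -- a large prime
  set E : Finset ((Fin r →₀ ℤ) × F) :=
    ((A ×ˢ A) ×ˢ ((Finset.univ : Finset (Fin n)) ×ˢ (Finset.univ : Finset (Fin n)))).image
      (fun p => (p.1.1 p.2.1 - p.1.2 p.2.1) - (p.1.1 p.2.2 - p.1.2 p.2.2)) ∪
    ((A ×ˢ A) ×ˢ (Finset.univ : Finset (Fin n))).image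
      (fun p => p.1.1 p.2 - p.1.2 p.2) with hE
  obtain ⟨q, hq1, hq2⟩ := Nat.exists_infinite_primes
    (E.sup (fun x => Finset.univ.sup (fun j => (x.1 j).natAbs)) + ⌈(2 * K) ^ 7001 * A.card⌉₊ + 1)
  have : Fact q.Prime := ⟨hq2⟩
  have hbd : ∀ x ∈ E, ∀ j, (x.1 j).natAbs < q := by
    intro x hx j
    have h1 : (x.1 j).natAbs ≤ Finset.univ.sup (fun j => (x.1 j).natAbs) :=
      Finset.le_sup (f := fun j => (x.1 j).natAbs) (Finset.mem_univ j)
    have h2 : Finset.univ.sup (fun j => (x.1 j).natAbs) ≤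
        E.sup (fun x => Finset.univ.sup (fun j => (x.1 j).natAbs)) :=
      Finset.le_sup (f := fun x : (Fin r →₀ ℤ) × F =>
        Finset.univ.sup (fun j => (x.1 j).natAbs)) hx
    omega
  have hE1 : ∀ a ∈ A, ∀ b ∈ A, ∀ i, a i - b i ∈ E := by
    intro a ha b hb i
    rw [hE]
    refine Finset.mem_union_right _ (Finset.mem_image.2 ⟨((a, b), i), ?_, rfl⟩)
    exact Finset.mem_product.2 ⟨Finset.mem_product.2 ⟨ha, hb⟩, Finset.mem_univ _⟩
  have hE2 : ∀ a ∈ A, ∀ b ∈ A, ∀ i j, (a i - b i) - (a j - b j) ∈ E := by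
    intro a ha b hb i j
    rw [hE]
    refine Finset.mem_union_left _ (Finset.mem_image.2 ⟨((a, b), (i, j)), ?_, rfl⟩)
    exact Finset.mem_product.2 ⟨Finset.mem_product.2 ⟨ha, hb⟩,
      Finset.mem_product.2 ⟨Finset.mem_univ _, Finset.mem_univ _⟩⟩
  have hqK : (2 * K) ^ 7001 * A.card < q := by
    have h1 : ⌈(2 * K) ^ 7001 * (A.card : ℝ)⌉₊ < q := by omega
    exact Nat.lt_of_ceil_lt h1
  set ψ := red r q F with hψ
  set Ψ : (Fin n → (Fin r →₀ ℤ) × F) → (Fin n → (Fin r → ZMod q) × F) := fun a i => ψ (a i)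
    with hΨ
  have hinj : ∀ a ∈ A, ∀ b ∈ A, Ψ a = Ψ b → a = b := by
    intro a ha b hb hab
    funext i
    have h1 : ψ (a i - b i) = 0 := by
      rw [map_sub, sub_eq_zero]
      exact congrFun hab i
    have h2 : (a i - b i).1 = 0 := red_zero (hbd _ (hE1 a ha b hb i)) (by
      rw [← hψ, h1]
      rfl)
    have h3 : (a i - b i).2 = 0 := by
      have : (ψ (a i - b i)).2 = (a i - b i).2 := rfl
      rw [← this, h1]
      rfl
    exact sub_eq_zero.1 (Prod.ext h2 h3)
  set B := A.image Ψ with hB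
  have hcard : B.card = A.card := Finset.card_image_of_injOn fun a ha b hb h => hinj a ha b hb h
  have hBK : Near B K := near_image hK ψ hcard
  obtain ⟨N, _, hN1, T, hT1, hT2⟩ := near_fin' (hA.image Ψ) hBK hn
  rw [← hB] at hN1 hT2
  rw [hcard] at hN1
  -- `N` lies in the torsion part
  have hNcard : Nat.card N < q := by
    obtain ⟨b₀, hb₀⟩ := hA.image Ψ
    have hSfin : ((B : Set (Fin n → (Fin r → ZMod q) × F)) +
        (zs n N : Set (Fin n → (Fin r → ZMod q) × F))).Finite := Set.toFinite _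
    have h1 : Nat.card N ≤ ((B : Set (Fin n → (Fin r → ZMod q) × F)) +
        (zs n N : Set (Fin n → (Fin r → ZMod q) × F))).ncard := by
      rw [← Nat.card_coe_set_eq]
      have : Finite ((B : Set (Fin n → (Fin r → ZMod q) × F)) +
        (zs n N : Set (Fin n → (Fin r → ZMod q) × F)) : Set _) := hSfin
      refine Nat.card_le_card_of_injective
        (fun v : N => (⟨b₀ + (Pi.single (⟨0, by omega⟩ : Fin n) (v : (Fin r → ZMod q) × F) -
          Pi.single (⟨1, by omega⟩ : Fin n) (v : (Fin r → ZMod q) × F)), ?_⟩ :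
            ((B : Set (Fin n → (Fin r → ZMod q) × F)) +
        (zs n N : Set (Fin n → (Fin r → ZMod q) × F)) : Set _))) ?_
      · refine Set.add_mem_add (Finset.mem_coe.2 hb₀) (mem_zs.2 ⟨fun i => ?_, ?_⟩)
        · rw [Pi.sub_apply]
          refine N.sub_mem ?_ ?_
          · by_cases h : i = (⟨0, by omega⟩ : Fin n)
            · rw [h, Pi.single_eq_same]
              exact v.2
            · rw [Pi.single_eq_of_ne h]
              exact N.zero_mem
          · by_cases h : i = (⟨1, by omega⟩ : Fin n)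
            · rw [h, Pi.single_eq_same]
              exact v.2
            · rw [Pi.single_eq_of_ne h]
              exact N.zero_mem
        · simp only [Pi.sub_apply]
          rw [Finset.sum_sub_distrib, Finset.sum_pi_single', Finset.sum_pi_single',
            if_pos (Finset.mem_univ _), if_pos (Finset.mem_univ _), sub_self]
      · intro v v' hvv
        have h2 := congrArg Subtype.val hvv
        simp only at h2
        have h3 := congrFun (add_left_cancel h2) (⟨0, by omega⟩ : Fin n)
        have hne : (⟨0, by omega⟩ : Fin n) ≠ ⟨1, by omega⟩ := by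
          intro h
          have := congrArg Fin.val h
          simp at this
        rw [Pi.sub_apply, Pi.sub_apply, Pi.single_eq_same, Pi.single_eq_same,
          Pi.single_eq_of_ne hne, Pi.single_eq_of_ne hne, sub_zero, sub_zero] at h3
        exact Subtype.ext h3
    have h2 : ((((B : Set (Fin n → (Fin r → ZMod q) × F)) +
        (zs n N : Set (Fin n → (Fin r → ZMod q) × F))).ncard : ℕ) : ℝ) < q :=
      lt_of_le_of_lt hN1 hqK
    have h3 : ((B : Set (Fin n → (Fin r → ZMod q) × F)) +
        (zs n N : Set (Fin n → (Fin r → ZMod q) × F))).ncard < q := by exact_mod_cast h2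
    exact lt_of_le_of_lt h1 h3
  have hN0 : ∀ x ∈ N, x.1 = 0 := by
    intro x hx
    have h1 : Nat.card N • (⟨x, hx⟩ : N) = 0 := card_nsmul_eq_zero'
    have h2 : Nat.card N • x = 0 := by
      have h3 : ((Nat.card N • (⟨x, hx⟩ : N) : N) : (Fin r → ZMod q) × F) = ((0 : N) : _) :=
        congrArg Subtype.val h1
      rw [AddSubgroup.coe_nsmul, AddSubgroup.coe_zero] at h3
      exact h3
    funext j
    have h3 : ((Nat.card N : ℕ) : ZMod q) * x.1 j = 0 := by
      have := congrArg (fun y : (Fin r → ZMod q) × F => y.1 j) h2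
      simpa using this
    rcases mul_eq_zero.1 h3 with h4 | h4
    · exfalso
      rw [ZMod.natCast_eq_zero_iff] at h4
      have h5 := Nat.le_of_dvd Nat.card_pos h4
      omega
    · exact h4
  -- the lifted subgroup
  set N' : AddSubgroup ((Fin r →₀ ℤ) × F) :=
    N.comap ψ ⊓ (AddMonoidHom.fst (Fin r →₀ ℤ) F).ker with hN'
  have hmem : ∀ x, x ∈ N' ↔ ψ x ∈ N ∧ x.1 = 0 := fun x => Iff.rfl
  have hfin : Finite N' := by
    refine Finite.of_injective (fun x : N' => (x : (Fin r →₀ ℤ) × F).2) ?_
    intro x y hxy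
    apply Subtype.ext
    exact Prod.ext (((hmem _).1 x.2).2.trans ((hmem _).1 y.2).2.symm) hxy
  refine ⟨N', hfin, ?_, ?_⟩
  · have h1 : ((A : Set (Fin n → (Fin r →₀ ℤ) × F)) + (zs n N' : Set _)).ncard ≤
        ((B : Set (Fin n → (Fin r → ZMod q) × F)) +
        (zs n N : Set (Fin n → (Fin r → ZMod q) × F))).ncard := by
      refine Set.ncard_le_ncard_of_injOn Ψ ?_ ?_ (Set.toFinite _)
      · intro x hx
        obtain ⟨a, ha, z, hz, rfl⟩ := Set.mem_add.1 hx
        have e : Ψ (a + z) = Ψ a + Ψ z := by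
          funext i
          exact map_add ψ (a i) (z i)
        rw [e]
        refine Set.add_mem_add (Finset.mem_coe.2 (Finset.mem_image_of_mem _ ha))
          (mem_zs.2 ⟨fun i => ?_, ?_⟩)
        · exact ((hmem _).1 (hz.1 i)).1
        · have h2 : ∑ i, ψ (z i) = ψ (∑ i, z i) := (map_sum ψ _ _).symm
          change ∑ i, ψ (z i) = 0
          rw [h2, hz.2, map_zero]
      · intro x hx y hy hxy
        obtain ⟨a, ha, z, hz, rfl⟩ := Set.mem_add.1 hx
        obtain ⟨b, hb, z', hz', rfl⟩ := Set.mem_add.1 hy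
        funext i
        have h2 : ψ (a i + z i) = ψ (b i + z' i) := congrFun hxy i
        have h3 : (z i).1 = 0 := ((hmem _).1 (hz.1 i)).2
        have h4 : (z' i).1 = 0 := ((hmem _).1 (hz'.1 i)).2
        have h5 : (a i - b i).1 = 0 := by
          refine red_zero (hbd _ (hE1 a ha b hb i)) ?_
          have h6 := congrArg Prod.fst h2
          funext j
          have h7 := congrFun h6 j
          rw [red_fst, red_fst] at h7
          rw [red_fst]
          have h8 : (a i + z i).1 j = (a i).1 j := by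
            rw [Prod.fst_add, h3, add_zero]
          have h9 : (b i + z' i).1 j = (b i).1 j := by
            rw [Prod.fst_add, h4, add_zero]
          rw [h8, h9] at h7
          rw [Prod.fst_sub, Finsupp.sub_apply, Int.cast_sub, h7, sub_self]
          rfl
        have h6 : (a i + z i).2 = (b i + z' i).2 := by
          have h7 : (ψ (a i + z i)).2 = (ψ (b i + z' i)).2 := by rw [h2]
          exact h7
        refine Prod.ext ?_ h6
        change (a i).1 + (z i).1 = (b i).1 + (z' i).1
        rw [h3, h4, add_zero, add_zero]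
        exact sub_eq_zero.1 h5
    have h2 : ((((A : Set (Fin n → (Fin r →₀ ℤ) × F)) + (zs n N' : Set _)).ncard : ℕ) : ℝ) ≤
        (((B : Set (Fin n → (Fin r → ZMod q) × F)) +
        (zs n N : Set (Fin n → (Fin r → ZMod q) × F))).ncard : ℕ) := by exact_mod_cast h1
    exact h2.trans hN1
  · -- the cover
    have hex : ∀ s : Fin n → (Fin r → ZMod q) × F, ∃ a : Fin n → (Fin r →₀ ℤ) × F,
        (∃ b ∈ A, ∀ i j, (Ψ b i - s i) - (Ψ b j - s j) ∈ N) →
          a ∈ A ∧ ∀ i j, (Ψ a i - s i) - (Ψ a j - s j) ∈ N := by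
      intro s
      by_cases h : ∃ b ∈ A, ∀ i j, (Ψ b i - s i) - (Ψ b j - s j) ∈ N
      · obtain ⟨b, hb⟩ := h
        exact ⟨b, fun _ => hb⟩
      · exact ⟨0, fun h' => absurd h' h⟩
    choose ρ hρ using hex
    refine ⟨T.image ρ, ?_, ?_⟩
    · have : ((T.image ρ).card : ℝ) ≤ T.card := by exact_mod_cast Finset.card_image_le
      exact this.trans hT1
    · intro a ha
      obtain ⟨s, hs, h1⟩ := hT2 (Ψ a) (Finset.mem_image_of_mem _ ha)
      obtain ⟨h2, h3⟩ := hρ s ⟨a, ha, h1⟩
      refine ⟨ρ s, Finset.mem_image_of_mem _ hs, fun i j => ?_⟩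
      rw [hmem]
      have h4 : ψ ((a i - ρ s i) - (a j - ρ s j)) ∈ N := by
        have h5 := N.sub_mem (h1 i j) (h3 i j)
        have e : ψ ((a i - ρ s i) - (a j - ρ s j)) = Ψ a i - s i - (Ψ a j - s j) -
            (Ψ (ρ s) i - s i - (Ψ (ρ s) j - s j)) := by
          rw [map_sub, map_sub, map_sub]
          simp only [hΨ]
          abel
        rw [e]
        exact h5
      refine ⟨h4, red_zero (hbd _ (hE2 a ha _ h2 i j)) (hN0 _ h4)⟩

end prod

/-- **Nearly symmetric sets over an arbitrary abelian group.** -/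
theorem near_gen {M : Type*} [AddCommGroup M] {n : ℕ} [DecidableEq (Fin n → M)]
    {A : Finset (Fin n → M)} (hA : A.Nonempty) {K : ℝ}
    (hK : Near A K) (hn : 700000000 * Real.log (2 * K) ≤ n) :
    Concl A ((2 * K) ^ 7001 * A.card) ((2 * K) ^ 8776) := by
  -- the group generated by the coordinates
  set S : Finset M := A.biUnion (fun a => Finset.univ.image (fun i => a i)) with hS
  set M1 : AddSubgroup M := AddSubgroup.closure (S : Set M) with hM1
  have hfg : AddGroup.FG M1 :=
    (AddGroup.fg_iff_addSubgroup_fg M1).2 ⟨S, rfl⟩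
  obtain ⟨r, ι, hι, p, hp, e, ⟨φ⟩⟩ := AddCommGroup.equiv_free_prod_directSum_zmod M1
  have hmem : ∀ a ∈ A, ∀ i, a i ∈ M1 := by
    intro a ha i
    apply AddSubgroup.subset_closure
    rw [Finset.mem_coe, hS]
    exact Finset.mem_biUnion.2 ⟨a, ha, Finset.mem_image_of_mem _ (Finset.mem_univ i)⟩
  have hne : ∀ i, NeZero (p i ^ e i) := fun i => ⟨pow_ne_zero _ (hp i).ne_zero⟩
  have hFfin : Finite (⨁ i : ι, ZMod (p i ^ e i)) := by
    have : ∀ i, Finite (ZMod (p i ^ e i)) := fun i => inferInstance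
    exact Finite.of_injective (fun x : ⨁ i : ι, ZMod (p i ^ e i) => fun i => x i)
      (fun x y hxy => DFinsupp.ext fun i => congrFun hxy i)
  set f : (Fin r →₀ ℤ) × (⨁ i : ι, ZMod (p i ^ e i)) →+ M :=
    M1.subtype.comp φ.symm.toAddMonoidHom with hf
  have hfinj : Function.Injective f := by
    rw [hf]
    exact M1.subtype_injective.comp φ.symm.injective
  set g : M → (Fin r →₀ ℤ) × (⨁ i : ι, ZMod (p i ^ e i)) := Function.invFun f with hg
  have hgf : ∀ a ∈ A, ∀ i, f (g (a i)) = a i := by
    intro a ha i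
    refine Function.invFun_eq ⟨φ ⟨a i, hmem a ha i⟩, ?_⟩
    rw [hf]
    change ((φ.symm (φ ⟨a i, hmem a ha i⟩) : M1) : M) = a i
    rw [AddEquiv.symm_apply_apply]
  refine transport f hfinj g hgf ?_
  set A' := A.image (fun a i => g (a i)) with hA'
  have hcard : A'.card = A.card := by
    refine Finset.card_image_of_injOn fun a ha b hb hab => ?_
    funext i
    have h1 : g (a i) = g (b i) := congrFun hab i
    rw [← hgf a ha i, h1, hgf b hb i]
  have hK' : Near A' K := by
    intro σ
    rw [hcard]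
    refine le_trans ?_ (hK σ)
    have h1 : (A' + A'.image (act σ)).card ≤ (A + A.image (act σ)).card := by
      refine Finset.card_le_card_of_injOn (fun x i => f (x i)) ?_ ?_
      · intro x hx
        obtain ⟨y, hy, z, hz, rfl⟩ := Finset.mem_add.1 (Finset.mem_coe.1 hx)
        obtain ⟨a, ha, rfl⟩ := Finset.mem_image.1 hy
        obtain ⟨z', hz', rfl⟩ := Finset.mem_image.1 hz
        obtain ⟨b, hb, rfl⟩ := Finset.mem_image.1 hz'
        rw [Finset.mem_coe]
        have : (fun i => f (((fun i => g (a i)) + act σ (fun i => g (b i)) :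
            Fin n → (Fin r →₀ ℤ) × (⨁ i : ι, ZMod (p i ^ e i))) i)) = a + act σ b := by
          funext i
          change f (g (a i) + g (b (σ i))) = a i + b (σ i)
          rw [map_add, hgf a ha, hgf b hb]
        beta_reduce
        rw [this]
        exact Finset.add_mem_add ha (Finset.mem_image_of_mem _ hb)
      · intro x _ y _ hxy
        funext i
        exact hfinj (congrFun hxy i)
    exact_mod_cast h1
  have h1 := prod_case (F := ⨁ i : ι, ZMod (p i ^ e i)) (hA.image _) hK' hn
  rw [← hA', hcard] at h1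
  exact h1

end Pool.Agent.T9h99.Sym2
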