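import Pool.Agent.T9h99.Sym2.Final
set_option autoImplicit false

/-! Half of the permutations suffice. -/

open scoped Classical Pointwise
set_option linter.unusedSectionVars false
set_option linter.unusedVariables false

namespace Pool.Agent.T9h99.Sym2

open Pool.Agent.T9h99.Sym Pool.Agent.TH414.Dil

variable {n : ℕ} {M W : Type*} [AddCommGroup M] [AddCommGroup W]

theorem act2_act2 (σ τ : Equiv.Perm (Fin n)) (a : (Fin n → M) × W) :
    act2 τ (act2 σ a) = act2 (σ * τ) a := rfl

theorem act2_sub (σ : Equiv.Perm (Fin n)) (a b : (Fin n → M) × W) :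
    act2 σ (a - b) = act2 σ a - act2 σ b := rfl

theorem act2_one (a : (Fin n → M) × W) : act2 1 a = a := rfl

theorem act2_inj (σ : Equiv.Perm (Fin n)) : Function.Injective (act2 (M := M) (W := W) σ) := by
  intro a b h
  have h1 := congrArg (act2 σ⁻¹) h
  rw [act2_act2, act2_act2, mul_inv_cancel] at h1
  exact h1

/-- two permuted copies -/
theorem card_two [DecidableEq ((Fin n → M) × W)] {A : Finset ((Fin n → M) × W)}
    (hA : A.Nonempty) {K : ℝ} (hK0 : 0 ≤ K) {σ τ : Equiv.Perm (Fin n)}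
    (h1 : ((A + A.image (act2 σ)).card : ℝ) ≤ K * A.card)
    (h2 : ((A + A.image (act2 τ)).card : ℝ) ≤ K * A.card) :
    ((A - A.image (act2 (τ * σ⁻¹))).card : ℝ) ≤ K ^ 2 * A.card := by
  have hA0 : (0 : ℝ) < A.card := by exact_mod_cast hA.card_pos
  have h3 := Finset.ruzsa_triangle_inequality_sub_add_add (A.image (act2 σ)) A (A.image (act2 τ))
  have h4 : (((A.image (act2 σ) - A.image (act2 τ)).card : ℝ)) * A.card ≤
      (A.image (act2 σ) + A).card * (A.image (act2 τ) + A).card := by exact_mod_cast h3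
  rw [add_comm (A.image (act2 σ)), add_comm (A.image (act2 τ))] at h4
  have h5 : ((A + A.image (act2 σ)).card : ℝ) * (A + A.image (act2 τ)).card ≤
      (K * A.card) * (K * A.card) := mul_le_mul h1 h2 (by positivity) (by positivity)
  have h6 : (((A.image (act2 σ) - A.image (act2 τ)).card : ℝ)) * A.card ≤
      (K ^ 2 * A.card) * A.card := by nlinarith
  have h7 : ((A.image (act2 σ) - A.image (act2 τ)).card : ℝ) ≤ K ^ 2 * A.card :=
    le_of_mul_le_mul_right h6 hA0
  have h8 : (A - A.image (act2 (τ * σ⁻¹))).card ≤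
      (A.image (act2 σ) - A.image (act2 τ)).card := by
    refine Finset.card_le_card_of_injOn (act2 σ) ?_ ((act2_inj σ).injOn)
    intro x hx
    obtain ⟨a, ha, y, hy, rfl⟩ := Finset.mem_sub.1 (Finset.mem_coe.1 hx)
    obtain ⟨b, hb, rfl⟩ := Finset.mem_image.1 hy
    rw [Finset.mem_coe, act2_sub, act2_act2, inv_mul_cancel_right]
    exact Finset.sub_mem_sub (Finset.mem_image_of_mem _ ha) (Finset.mem_image_of_mem _ hb)
  have h9 : ((A - A.image (act2 (τ * σ⁻¹))).card : ℝ) ≤
      (A.image (act2 σ) - A.image (act2 τ)).card := by exact_mod_cast h8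
  exact h9.trans h7

/-- **Half of the permutations suffice.** -/
theorem half_all [DecidableEq ((Fin n → M) × W)] {A : Finset ((Fin n → M) × W)}
    (hA : A.Nonempty) {K : ℝ}
    (hK : Fintype.card (Equiv.Perm (Fin n)) < 2 * (Finset.univ.filter
      (fun σ : Equiv.Perm (Fin n) =>
        ((A + A.image (act2 σ)).card : ℝ) ≤ K * A.card)).card) :
    1 ≤ K ∧ ∀ σ : Equiv.Perm (Fin n), ((A + A.image (act2 σ)).card : ℝ) ≤ K ^ 4 * A.card := by
  have hA0 : (0 : ℝ) < A.card := by exact_mod_cast hA.card_pos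
  set S := Finset.univ.filter (fun σ : Equiv.Perm (Fin n) =>
    ((A + A.image (act2 σ)).card : ℝ) ≤ K * A.card) with hS
  have hmem : ∀ σ ∈ S, ((A + A.image (act2 σ)).card : ℝ) ≤ K * A.card := fun σ hσ =>
    (Finset.mem_filter.1 hσ).2
  obtain ⟨σ₀, hσ₀⟩ : S.Nonempty := by
    rw [← Finset.card_pos]
    omega
  have hK1 : 1 ≤ K := by
    have h1 : (A.card : ℝ) ≤ (A + A.image (act2 σ₀)).card := by
      exact_mod_cast Finset.card_le_card_add_right (hA.image _)
    have h2 := h1.trans (hmem σ₀ hσ₀)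
    by_contra h3
    push Not at h3
    nlinarith
  have hK0 : 0 ≤ K := by linarith
  refine ⟨hK1, ?_⟩
  -- differences
  have hd : ∀ ρ : Equiv.Perm (Fin n), ((A - A.image (act2 ρ)).card : ℝ) ≤ K ^ 2 * A.card := by
    intro ρ
    -- `S` and its translate intersect
    have h1 : ∃ σ ∈ S, ρ * σ ∈ S := by
      by_contra hcon
      push Not at hcon
      have h2 : Disjoint S (S.image (fun σ => ρ * σ)) := by
        rw [Finset.disjoint_left]
        intro x hx hx'
        obtain ⟨y, hy, rfl⟩ := Finset.mem_image.1 hx'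
        exact hcon y hy hx
      have h3 := Finset.card_union_of_disjoint h2
      rw [Finset.card_image_of_injective _ (mul_right_injective ρ)] at h3
      have h4 := Finset.card_le_univ (S ∪ S.image (fun σ => ρ * σ))
      omega
    obtain ⟨σ, hσ, hσ'⟩ := h1
    have h2 := card_two hA hK0 (hmem σ hσ) (hmem _ hσ')
    rw [mul_inv_cancel_right] at h2
    exact h2
  have hAA : ((A - A).card : ℝ) ≤ K ^ 2 * A.card := by
    have h1 := hd 1
    have e : A.image (act2 (1 : Equiv.Perm (Fin n))) = A := by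
      have : (act2 (1 : Equiv.Perm (Fin n)) : (Fin n → M) × W → (Fin n → M) × W) = id := rfl
      rw [this, Finset.image_id]
    rwa [e] at h1
  intro ρ
  have h1 := Finset.ruzsa_triangle_inequality_add_sub_sub A A (A.image (act2 ρ))
  have h2 : ((A + A.image (act2 ρ)).card : ℝ) * A.card ≤
      (A - A).card * (A - A.image (act2 ρ)).card := by exact_mod_cast h1
  have h3 : ((A - A).card : ℝ) * (A - A.image (act2 ρ)).card ≤
      (K ^ 2 * A.card) * (K ^ 2 * A.card) :=
    mul_le_mul hAA (hd ρ) (by positivity) (by positivity)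
  have h4 : ((A + A.image (act2 ρ)).card : ℝ) * A.card ≤ (K ^ 4 * A.card) * A.card := by
    refine h2.trans (h3.trans (le_of_eq ?_))
    ring
  exact le_of_mul_le_mul_right h4 hA0

/-- **Partially symmetric sets, half of the permutations.** -/
theorem near_half [DecidableEq ((Fin n → M) × W)] {A : Finset ((Fin n → M) × W)}
    (hA : A.Nonempty) {K : ℝ}
    (hK : Fintype.card (Equiv.Perm (Fin n)) < 2 * (Finset.univ.filter
      (fun σ : Equiv.Perm (Fin n) =>
        ((A + A.image (act2 σ)).card : ℝ) ≤ K * A.card)).card)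
    (hn : 2800000000 * Real.log (2 * K) ≤ n) :
    1 ≤ K ∧ 0 < n ∧ ∃ N : AddSubgroup M, Finite N ∧
      (((A : Set ((Fin n → M) × W)) + (zw N n W : Set ((Fin n → M) × W))).ncard : ℝ) ≤
        (2 * K) ^ 28004 * A.card ∧
      ∃ T : Finset ((Fin n → M) × W), (T.card : ℝ) ≤ (2 * K) ^ 35104 ∧
        ∀ a ∈ A, ∃ t ∈ T, ∀ i j, (a.1 i - t.1 i) - (a.1 j - t.1 j) ∈ N := by
  obtain ⟨hK1, hall⟩ := half_all hA hK
  have hK0 : 0 < K := by linarith
  have hlog : Real.log (2 * K) = Real.log 2 + Real.log K := by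
    rw [Real.log_mul (by norm_num) hK0.ne']
  have hlog4 : Real.log (2 * K ^ 4) = Real.log 2 + 4 * Real.log K := by
    rw [Real.log_mul (by norm_num) (by positivity), Real.log_pow]
    norm_num
  have hl2 := Real.log_pos (by norm_num : (1 : ℝ) < 2)
  have hlK := Real.log_nonneg hK1
  have hn0 : 0 < n := by
    have h3 : (0 : ℝ) < n := by
      refine lt_of_lt_of_le ?_ hn
      rw [hlog]
      linarith
    exact_mod_cast h3
  obtain ⟨N, hN, hN1, T, hT1, hT2⟩ := near_two hA hall hn0 (by
    rw [hlog4]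
    rw [hlog] at hn
    linarith)
  have hc : 2 * K ^ 4 ≤ (2 * K) ^ 4 := by
    rw [mul_pow]
    have : (1 : ℝ) ≤ K ^ 4 := one_le_pow₀ hK1
    nlinarith
  refine ⟨hK1, hn0, N, hN, hN1.trans ?_, T, hT1.trans ?_, hT2⟩
  · refine mul_le_mul_of_nonneg_right ?_ (Nat.cast_nonneg _)
    have h1 := pow_le_pow_left₀ (by positivity) hc 7001
    rw [← pow_mul] at h1
    exact h1
  · have h1 := pow_le_pow_left₀ (by positivity) hc 8776
    rw [← pow_mul] at h1
    exact h1

end Pool.Agent.T9h99.Sym2
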