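import Pool.Agent.T9h99.Sym.FinMain
set_option autoImplicit false

/-! Nearly symmetric sets: the random permutation of a random element, with a label of the
permutation. The labels are chosen such that their differences determine the pair of permutations. -/

open scoped Classical Pointwise
set_option linter.unusedSectionVars false
set_option linter.unusedVariables false

namespace Pool.Agent.T9h99.Sym2

open H137.PFR H137.TwoPow H137.Weak Pool.Agent.T9h99.Sym

/-- class modulo a subgroup -/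
def cl {Γ : Type*} [AddCommGroup Γ] (B : AddSubgroup Γ) (x : Γ) : Γ ⧸ B := QuotientAddGroup.mk x

theorem cl_eq {Γ : Type*} [AddCommGroup Γ] {B : AddSubgroup Γ} {x y : Γ} :
    cl B x = cl B y ↔ -x + y ∈ B := QuotientAddGroup.eq

theorem cl_sub {Γ : Type*} [AddCommGroup Γ] (B : AddSubgroup Γ) (x y : Γ) :
    cl B x - cl B y = cl B (x - y) := rfl

variable {n : ℕ} {V : Type*} [AddCommGroup V]

/-- permutation of the coordinates -/
def act (σ : Equiv.Perm (Fin n)) : (Fin n → V) →+ (Fin n → V) where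
  toFun x := fun i => x (σ i)
  map_zero' := rfl
  map_add' _ _ := rfl

theorem act_apply (σ : Equiv.Perm (Fin n)) (x : Fin n → V) (i : Fin n) : act σ x i = x (σ i) := rfl

theorem act_act (σ τ : Equiv.Perm (Fin n)) (x : Fin n → V) : act τ (act σ x) = act (σ * τ) x := rfl

theorem act_inj (σ : Equiv.Perm (Fin n)) : Function.Injective (act (V := V) σ) := by
  intro x y h
  funext i
  have := congrFun h (σ.symm i)
  simpa [act_apply] using this

/-- the sample space -/
abbrev Om (A : Finset (Fin n → V)) : Type _ := Equiv.Perm (Fin n) × A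

/-- uniform weights on the permutations -/
noncomputable def uP (n : ℕ) : Equiv.Perm (Fin n) → ℝ :=
  fun _ => (Fintype.card (Equiv.Perm (Fin n)) : ℝ)⁻¹

theorem cardP_pos (n : ℕ) : (0 : ℝ) < Fintype.card (Equiv.Perm (Fin n)) := by
  exact_mod_cast Fintype.card_pos

theorem law_uP (n : ℕ) : Law (uP n) := by
  refine ⟨fun x => by unfold uP; positivity, ?_⟩
  unfold uP
  rw [Finset.sum_const, Finset.card_univ, nsmul_eq_mul, mul_inv_cancel₀ (cardP_pos n).ne']

/-- uniform weights on the sample space -/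
noncomputable def wO (A : Finset (Fin n → V)) : Om A → ℝ := prod (uP n) (uw A)

theorem law_wO {A : Finset (Fin n → V)} (hA : A.Nonempty) : Law (wO A) :=
  law_prod (law_uP n) (law_uw hA)

/-- label of a permutation -/
noncomputable def lab (σ : Equiv.Perm (Fin n)) : Equiv.Perm (Fin n) → ℤ := Pi.single σ 1

theorem lab_inj {σ τ : Equiv.Perm (Fin n)} (h : lab σ = lab τ) : σ = τ := by
  by_contra hne
  have := congrFun h σ
  unfold lab at this
  rw [Pi.single_eq_same, Pi.single_eq_of_ne hne] at this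
  exact one_ne_zero this

/-- the permuted random element with its label -/
noncomputable def Xt (A : Finset (Fin n → V)) : Om A → (Equiv.Perm (Fin n) → ℤ) × (Fin n → V) :=
  fun ω => (lab ω.1, act ω.1 ω.2)

/-- a subgroup of the group of vectors in the large group -/
def Lf (B : AddSubgroup (Fin n → V)) : AddSubgroup ((Equiv.Perm (Fin n) → ℤ) × (Fin n → V)) :=
  B.map (AddMonoidHom.inr _ _)

theorem mem_Lf {B : AddSubgroup (Fin n → V)} {x : (Equiv.Perm (Fin n) → ℤ) × (Fin n → V)} :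
    x ∈ Lf B ↔ x.1 = 0 ∧ x.2 ∈ B := by
  unfold Lf
  rw [AddSubgroup.mem_map]
  constructor
  · rintro ⟨y, hy, rfl⟩
    exact ⟨rfl, hy⟩
  · rintro ⟨h1, h2⟩
    exact ⟨x.2, h2, Prod.ext h1.symm rfl⟩

theorem inr_inj : Function.Injective
    (AddMonoidHom.inr (Equiv.Perm (Fin n) → ℤ) (Fin n → V)) := by
  intro x y h
  exact congrArg Prod.snd h

theorem Lf_mono {B C : AddSubgroup (Fin n → V)} (h : B ≤ C) : Lf B ≤ Lf C :=
  AddSubgroup.map_mono h

theorem Lf_inf (B C : AddSubgroup (Fin n → V)) : Lf B ⊓ Lf C = Lf (B ⊓ C) :=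
  (AddSubgroup.map_inf B C _ inr_inj).symm

theorem Lf_sup (B C : AddSubgroup (Fin n → V)) : Lf B ⊔ Lf C = Lf (B ⊔ C) :=
  (AddSubgroup.map_sup B C _).symm

theorem relIndex_Lf (B C : AddSubgroup (Fin n → V)) : (Lf B).relIndex (Lf C) = B.relIndex C :=
  AddSubgroup.relIndex_map_map_of_injective B C inr_inj

theorem Xt_class {A : Finset (Fin n → V)} (B : AddSubgroup (Fin n → V)) (ω ω' : Om A) :
    cl (Lf B) (Xt A ω) = cl (Lf B) (Xt A ω') ↔
      (ω.1, cl B (act ω.1 (ω.2 : Fin n → V))) = (ω'.1, cl B (act ω'.1 (ω'.2 : Fin n → V))) := by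
  rw [cl_eq, mem_Lf, Prod.mk.injEq, cl_eq]
  refine and_congr_left fun _ => ?_
  change -lab ω.1 + lab ω'.1 = 0 ↔ _
  rw [neg_add_eq_zero]
  exact ⟨fun h => lab_inj h, fun h => congrArg lab h⟩

/-- entropy of the permuted element modulo `B`, with the permutation -/
noncomputable def hB (A : Finset (Fin n → V)) (B : AddSubgroup (Fin n → V)) : ℝ :=
  Hg (wO A) (fun ω => (ω.1, cl B (act ω.1 (ω.2 : Fin n → V))))

theorem hh_Lf (A : Finset (Fin n → V)) (B : AddSubgroup (Fin n → V)) :
    hh (wO A) (Xt A) (Lf B) = hB A B :=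
  Hg_congr fun ω ω' => Xt_class B ω ω'

theorem hB_anti {A : Finset (Fin n → V)} (hA : A.Nonempty) {B C : AddSubgroup (Fin n → V)}
    (h : B ≤ C) : hB A C ≤ hB A B := by
  rw [← hh_Lf, ← hh_Lf]
  exact hh_anti (law_wO hA) _ (Lf_mono h)

theorem hB_sub {A : Finset (Fin n → V)} (hA : A.Nonempty) (B C : AddSubgroup (Fin n → V)) :
    hB A (B ⊓ C) + hB A (B ⊔ C) ≤ hB A B + hB A C := by
  rw [← hh_Lf, ← hh_Lf, ← hh_Lf, ← hh_Lf, ← Lf_inf, ← Lf_sup]
  exact N149.Tow.hh_inf_sup (law_wO hA) _ _ _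

/-- relabelling of the permutations -/
def relab (A : Finset (Fin n → V)) (τ : Equiv.Perm (Fin n)) : Om A ≃ Om A :=
  Equiv.prodCongr (Equiv.mulRight τ) (Equiv.refl _)

theorem relab_fst (A : Finset (Fin n → V)) (τ : Equiv.Perm (Fin n)) (ω : Om A) :
    (relab A τ ω).1 = ω.1 * τ := rfl

theorem relab_snd (A : Finset (Fin n → V)) (τ : Equiv.Perm (Fin n)) (ω : Om A) :
    (relab A τ ω).2 = ω.2 := rfl

theorem hB_perm {A : Finset (Fin n → V)} (τ : Equiv.Perm (Fin n))
    (B : AddSubgroup (Fin n → V)) : hB A (B.comap (act τ)) = hB A B := by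
  unfold hB
  rw [← Hg_equiv (w := wO A) (fun ω : Om A => (ω.1, cl B (act ω.1 (ω.2 : Fin n → V))))
    (relab A τ) (fun _ => rfl)]
  refine Hg_congr fun ω ω' => ?_
  rw [Prod.mk.injEq, Prod.mk.injEq, cl_eq, cl_eq, AddSubgroup.mem_comap, relab_fst, relab_fst,
    relab_snd, relab_snd]
  rw [map_add, map_neg, act_act, act_act]
  refine and_congr_left fun _ => ?_
  exact ⟨fun h => by rw [h], fun h => mul_right_cancel h⟩

/-- doubling of the permuted element modulo `B` -/
noncomputable def kB (A : Finset (Fin n → V)) (B : AddSubgroup (Fin n → V)) : ℝ :=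
  kk (wO A) (Xt A) (Lf B)

theorem kB_anti {A : Finset (Fin n → V)} (hA : A.Nonempty) {B C : AddSubgroup (Fin n → V)}
    (h : B ≤ C) : kB A C ≤ kB A B := kk_anti (law_wO hA) _ (Lf_mono h)

/-- difference of the labels -/
noncomputable def ee (A : Finset (Fin n → V)) (p : Om A × Om A) : Equiv.Perm (Fin n) → ℤ :=
  lab p.1.1 - lab p.2.1

/-- difference of the permuted elements -/
def Zz (A : Finset (Fin n → V)) (p : Om A × Om A) : Fin n → V :=
  act p.1.1 (p.1.2 : Fin n → V) - act p.2.1 (p.2.2 : Fin n → V)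

theorem kB_eq {A : Finset (Fin n → V)} (B : AddSubgroup (Fin n → V)) :
    kB A B = Hg (prod (wO A) (wO A)) (fun p => (ee A p, cl B (Zz A p))) - hB A B := by
  unfold kB kk kap
  congr 1
  · refine Hg_congr fun p q => ?_
    change cl (Lf B) (Xt A p.1) - cl (Lf B) (Xt A p.2) =
      cl (Lf B) (Xt A q.1) - cl (Lf B) (Xt A q.2) ↔ _
    rw [cl_sub, cl_sub, cl_eq, mem_Lf, Prod.mk.injEq, cl_eq]
    refine and_congr_left fun _ => ?_
    change -(lab p.1.1 - lab p.2.1) + (lab q.1.1 - lab q.2.1) = 0 ↔ _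
    rw [neg_add_eq_zero]
    exact Iff.rfl
  · exact hh_Lf A B

end Pool.Agent.T9h99.Sym2
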