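import Pool.Agent.T9h99.Sym2.Dbl
set_option autoImplicit false

/-! A subgroup carrying the structure of one coordinate of the lifted variable. -/

open scoped Classical Pointwise
set_option linter.unusedSectionVars false
set_option linter.unusedVariables false

namespace Pool.Agent.T9h99.Sym2

open H137.PFR H137.TwoPow H137.Weak Pool.Agent.T9h99.Sym

variable {n : ℕ} {V : Type*} [AddCommGroup V]

/-- evaluation at the coordinate `k` -/
def ev (V : Type*) [AddCommGroup V] {n k : ℕ} (hk : k < n) : (Fin n → V) →+ V :=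
  Pi.evalAddMonoidHom (fun _ => V) ⟨k, hk⟩

theorem between_eq {k : ℕ} (hk : k < n) {N' : AddSubgroup (Fin n → V)}
    (h1 : Mk n V (k + 1) ≤ N') (h2 : N' ≤ Mk n V k) :
    N' = Ek n k (N'.map (ev V hk)) ∧
      (Mk n V (k + 1)).relIndex N' = Nat.card (N'.map (ev V hk)) := by
  constructor
  · ext x
    rw [mem_Ek hk]
    constructor
    · intro hx
      exact ⟨mem_Mk.1 (h2 hx), AddSubgroup.mem_map.2 ⟨x, hx, rfl⟩⟩
    · rintro ⟨h4, h5⟩
      obtain ⟨y, hy, hyx⟩ := AddSubgroup.mem_map.1 h5
      have h6 : x - y ∈ Mk n V (k + 1) := by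
        rw [mem_Mk]
        intro i hi
        rw [Pi.sub_apply]
        by_cases h7 : (i : ℕ) < k
        · rw [h4 i h7, mem_Mk.1 (h2 hy) i h7, sub_zero]
        · have h8 : i = ⟨k, hk⟩ := Fin.ext (show (i : ℕ) = k by omega)
          rw [h8]
          have : y ⟨k, hk⟩ = x ⟨k, hk⟩ := hyx
          rw [this, sub_self]
      have h7 : x = (x - y) + y := by abel
      rw [h7]
      exact N'.add_mem (h1 h6) hy
  · rw [← AddSubgroup.relIndex_ker, ← AddSubgroup.inf_relIndex_right,
      ← AddSubgroup.inf_relIndex_right (ev V hk).ker]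
    congr 1
    ext x
    rw [AddSubgroup.mem_inf, AddSubgroup.mem_inf, AddMonoidHom.mem_ker, mem_Mk]
    constructor
    · rintro ⟨h4, h5⟩
      exact ⟨h4 ⟨k, hk⟩ (Nat.lt_succ_self k), h5⟩
    · rintro ⟨h4, h5⟩
      refine ⟨fun i hi => ?_, h5⟩
      by_cases h7 : (i : ℕ) < k
      · exact mem_Mk.1 (h2 h5) i h7
      · have h8 : i = ⟨k, hk⟩ := Fin.ext (show (i : ℕ) = k by omega)
        rw [h8]
        exact h4

/-- **One coordinate.** -/
theorem stage_B [Finite V] {A : Finset (Fin n → V)} (hA : A.Nonempty) {k : ℕ} (hk : k < n)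
    (hsmall : kB A (Mk n V (k + 1)) - kB A (Mk n V k) ≤ 1 / 40000000) :
    ∃ N : AddSubgroup V,
      hB A (Ek n k N) + Real.log (Nat.card N) ≤ hB A (Mk n V (k + 1)) +
        218 * (kB A (Mk n V (k + 1)) - kB A (Mk n V k)) ∧
      hB A (Ek n k N) ≤ hB A (Mk n V k) +
        218 * (kB A (Mk n V (k + 1)) - kB A (Mk n V k)) := by
  have hw := law_wO hA
  have hfin : (Mk n V (k + 1)).relIndex (Mk n V k) ≠ 0 := by
    unfold AddSubgroup.relIndex
    exact AddSubgroup.index_ne_zero_of_finite
  have hle := Mk_anti (n := n) (V := V) (Nat.le_succ k)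
  obtain ⟨N', h1, h2, h3⟩ := N149.Tow.stage_pair_99 hw (Xt A) (Lf_mono hle)
    (by rw [relIndex_Lf]; exact hfin) hsmall
  set N'' := N'.comap (AddMonoidHom.inr (Equiv.Perm (Fin n) → ℤ) (Fin n → V)) with hN''
  have hLf : Lf N'' = N' := by
    refine AddSubgroup.map_comap_eq_self (h2.trans ?_)
    rintro x hx
    obtain ⟨y, _, rfl⟩ := AddSubgroup.mem_map.1 hx
    exact ⟨y, rfl⟩
  have g1 : Mk n V (k + 1) ≤ N'' := by
    intro x hx
    rw [hN'', AddSubgroup.mem_comap]
    exact h1 (AddSubgroup.mem_map.2 ⟨x, hx, rfl⟩)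
  have g2 : N'' ≤ Mk n V k := by
    intro x hx
    rw [hN'', AddSubgroup.mem_comap] at hx
    exact (mem_Lf.1 (h2 hx)).2
  rw [← hLf, relIndex_Lf, hh_Lf, hh_Lf, hh_Lf] at h3
  obtain ⟨e1, e2⟩ := between_eq hk g1 g2
  have hidx : (Mk n V (k + 1)).relIndex N'' ≠ 0 := by
    intro h
    have h4 := AddSubgroup.relIndex_mul_relIndex (Mk n V (k + 1)) N'' (Mk n V k) g1 g2
    rw [h, zero_mul] at h4
    exact hfin h4.symm
  have hle2 := hh_le_add_log (w := wO A) (N := Lf (Mk n V (k + 1))) (M := Lf N'') hw (Xt A)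
    (Lf_mono g1) (by rw [relIndex_Lf]; exact hidx)
  rw [relIndex_Lf, hh_Lf, hh_Lf] at hle2
  have hanti := hB_anti hA g2
  rw [e2] at h3 hle2
  have hkB : kk (wO A) (Xt A) (Lf (Mk n V (k + 1))) - kk (wO A) (Xt A) (Lf (Mk n V k)) =
      kB A (Mk n V (k + 1)) - kB A (Mk n V k) := rfl
  rw [hkB] at h3
  refine ⟨N''.map (ev V hk), ?_, ?_⟩
  · rw [← e1]
    linarith
  · rw [← e1]
    linarith

theorem box_comap (τ : Equiv.Perm (Fin n)) (L : Fin n → AddSubgroup V) :
    (box (fun i => L (τ.symm i))) = (box L).comap (act τ) := by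
  ext x
  rw [AddSubgroup.mem_comap, mem_box, mem_box]
  constructor
  · intro h i
    have := h (τ i)
    rw [Equiv.symm_apply_apply] at this
    exact this
  · intro h i
    have := h (τ.symm i)
    rw [act_apply, Equiv.apply_symm_apply] at this
    exact this

theorem hB_box {A : Finset (Fin n → V)} (τ : Equiv.Perm (Fin n)) (L : Fin n → AddSubgroup V) :
    hB A (box (fun i => L (τ i))) = hB A (box L) := by
  have h1 := box_comap τ.symm L
  rw [Equiv.symm_symm] at h1
  rw [h1, hB_perm]

/-- all coordinates up to `k` together -/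
theorem hB_Pj {A : Finset (Fin n → V)} (hA : A.Nonempty) {k : ℕ} (hk : k < n)
    (N : AddSubgroup V) {ε : ℝ}
    (h : hB A (Ek n k N) + Real.log (Nat.card N) ≤ hB A (Mk n V (k + 1)) + ε) :
    ∀ j, j ≤ k + 1 →
      hB A (Pj n j k N) + j * Real.log (Nat.card N) ≤ hB A (Mk n V (k + 1)) + j * ε := by
  intro j
  induction j with
  | zero =>
    intro _
    have h1 : Pj n 0 k N = Mk n V (k + 1) := by
      ext x
      rw [mem_Pj, mem_Mk]
      refine forall_congr' fun i => ?_
      constructor
      · rintro ⟨_, h2⟩ h3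
        exact h2 (Nat.not_lt_zero _) (by omega)
      · intro h2
        exact ⟨fun h3 => absurd h3 (Nat.not_lt_zero _), fun _ h3 => h2 (by omega)⟩
    rw [h1]
    simp
  | succ j ih =>
    intro hj
    have ih' := ih (by omega)
    set E : AddSubgroup (Fin n → V) := box (fun i : Fin n => if (i : ℕ) = j then N else
      if (i : ℕ) ≤ k then ⊥ else ⊤) with hE
    have e1 : hB A E = hB A (Ek n k N) := by
      have h2 := hB_box (A := A) (Equiv.swap (⟨j, by omega⟩ : Fin n) ⟨k, hk⟩)
        (fun i => if (i : ℕ) < k then (⊥ : AddSubgroup V) else if (i : ℕ) = k then N else ⊤)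
      have h3 : E = box (fun i => (fun i : Fin n => if (i : ℕ) < k then (⊥ : AddSubgroup V) else
          if (i : ℕ) = k then N else ⊤) ((Equiv.swap (⟨j, by omega⟩ : Fin n) ⟨k, hk⟩) i)) := by
        rw [hE]
        congr 1
        funext i
        by_cases hij : (i : ℕ) = j
        · have : i = ⟨j, by omega⟩ := Fin.ext hij
          rw [if_pos hij, this, Equiv.swap_apply_left]
          simp
        · by_cases hik : (i : ℕ) = k
          · have : i = ⟨k, hk⟩ := Fin.ext hik
            rw [if_neg hij, this, Equiv.swap_apply_right]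
            have hjk : j < k := by omega
            simp [hjk]
          · rw [if_neg hij, Equiv.swap_apply_of_ne_of_ne (fun h => hij (congrArg Fin.val h))
              (fun h => hik (congrArg Fin.val h))]
            by_cases hik2 : (i : ℕ) < k
            · simp only [if_pos hik2, if_pos hik2.le]
            · simp only [if_neg hik2, if_neg hik, if_neg (show ¬ (i : ℕ) ≤ k by omega)]
      rw [h3]
      exact h2
    have e2 : Pj n j k N ⊓ E = Mk n V (k + 1) := by
      ext x
      rw [AddSubgroup.mem_inf, mem_Pj, hE, mem_box, mem_Mk]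
      constructor
      · rintro ⟨h2, h3⟩ i hi
        have h4 := h3 i
        by_cases hij : (i : ℕ) = j
        · exact (h2 i).2 (by omega) (by omega)
        · rw [if_neg hij, if_pos (by omega)] at h4
          exact h4
      · intro h2
        refine ⟨fun i => ⟨fun h3 => ?_, fun _ h3 => h2 i (by omega)⟩, fun i => ?_⟩
        · rw [h2 i (by omega)]
          exact N.zero_mem
        · split_ifs with h3 h4
          · rw [h2 i (by omega)]
            exact N.zero_mem
          · exact AddSubgroup.mem_bot.2 (h2 i (by omega))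
          · exact AddSubgroup.mem_top _
    have e3 : Pj n j k N ⊔ E = Pj n (j + 1) k N := by
      unfold Pj
      rw [hE, box_sup]
      congr 1
      funext i
      by_cases h2 : (i : ℕ) < j
      · rw [if_pos h2, if_neg (by omega), if_pos (show (i : ℕ) < j + 1 by omega),
          if_pos (by omega), sup_bot_eq]
      · by_cases h3 : (i : ℕ) = j
        · rw [if_neg h2, if_pos h3, if_pos (by omega), if_pos (by omega), bot_sup_eq]
        · rw [if_neg h2, if_neg h3, if_neg (show ¬ (i : ℕ) < j + 1 by omega)]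
          exact sup_idem _
    have h2 := hB_sub hA (Pj n j k N) E
    rw [e1, e2, e3] at h2
    push_cast
    linarith

/-- pigeonhole over the scales -/
theorem exists_k2 (f : ℕ → ℝ) (hf : ∀ i, f i ≤ f (i + 1)) {L : ℝ} (h0 : 0 ≤ f 0)
    (hL : ∀ i, f i ≤ 2 * L) {n : ℕ} (hn : 8 ≤ n) :
    ∃ k, n ≤ 2 * k ∧ 4 * k + 2 ≤ 3 * n ∧ f (k + 1) - f k ≤ 16 * L / n := by
  by_contra hcon
  push Not at hcon
  set h := (n + 1) / 2 with hh
  have key : ∀ q, q ≤ n / 4 → (q : ℝ) * (16 * L / n) ≤ f (h + q) - f h := by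
    intro q
    induction q with
    | zero =>
      intro _
      simp
    | succ q ih =>
      intro hq
      have h1 := ih (by omega)
      have h2 := hcon (h + q) (by omega) (by omega)
      push_cast
      have e : h + (q + 1) = h + q + 1 := by ring
      rw [e]
      nlinarith
  have hmono : Monotone f := monotone_nat_of_le_succ hf
  have hLnn : 0 ≤ L := by
    have := hL 0
    linarith
  have hn' : (0 : ℝ) < n := by
    have : 0 < n := by omega
    exact_mod_cast this
  have h2 : (n : ℝ) / 8 ≤ ((n / 4 : ℕ) : ℝ) := by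
    have h3 : n ≤ 8 * (n / 4) := by omega
    have h4 : (n : ℝ) ≤ 8 * ((n / 4 : ℕ) : ℝ) := by exact_mod_cast h3
    linarith
  have h3 : 2 * L ≤ ((n / 4 : ℕ) : ℝ) * (16 * L / n) := by
    have h4 : (n : ℝ) / 8 * (16 * L / n) = 2 * L := by
      field_simp
      ring
    rw [← h4]
    exact mul_le_mul_of_nonneg_right h2 (by positivity)
  have h5 : f (h + n / 4) ≤ 2 * L := hL _
  have h6 : 0 ≤ f h := le_trans h0 (hmono (Nat.zero_le _))
  have hq : 1 ≤ n / 4 := by omega
  obtain ⟨q, hq'⟩ : ∃ q, n / 4 = q + 1 := ⟨n / 4 - 1, by omega⟩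
  have h7 := key q (by omega)
  have h8 := hcon (h + q) (by omega) (by omega)
  rw [hq'] at h3 h5
  have e : h + (q + 1) = h + q + 1 := by ring
  rw [e] at h5
  push_cast at h3
  nlinarith

end Pool.Agent.T9h99.Sym2
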